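import Pool.Agent.H780.HG.Stm
import Pool.Agent.H780.RG.Fin
import Pool.Agent.H780.RG.RIGI

/-!
# Project HG: assembly
-/

set_option autoImplicit false

open MeasureTheory Metric Set Filter Topology InnerProductGeometry

namespace Pool.Agent.H780.HG.Asm

open Pool.Agent.H241R3.FV Pool.Agent.N526.CP Pool.Agent.H780.RG Pool.Agent.H780.HG

/-- the infimum over the boundary is attained -/
theorem attained {n : ℕ} (hn : 1 ≤ n) {M : Type} [MetricSpace M] {bd : Sph n → M}
    (hbd : Continuous bd) {F : E n → E n} (hF : CReg F) (q : M) (X : E n) :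
    ∃ x : Sph n, ⨅ x : Sph n, (dist q (bd x) + hdist (F x) X) = dist q (bd x) + hdist (F x) X := by
  obtain ⟨c1, c2, c3, c4, -⟩ := SPC.main n
  have hne : Nonempty (Sph n) := by
    obtain ⟨m, rfl⟩ : ∃ m, n = m + 1 := ⟨n - 1, by omega⟩
    exact ⟨⟨EuclideanSpace.single 0 1, by simp⟩⟩
  have hFc : Continuous fun x : Sph n => F x :=
    hF.cont.comp_continuous continuous_subtype_val fun x => sphere_subset_closedBall x.2
  have hc : Continuous fun x : Sph n => dist q (bd x) + hdist (F x) X := by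
    refine (continuous_const.dist hbd).add ?_
    have h6 : Continuous ((fun z : E n × E n => hdist z.1 z.2) ∘ fun x : Sph n => (F x, X)) :=
      c4.comp (hFc.prodMk continuous_const)
    exact h6
  obtain ⟨x, -, hx⟩ := isCompact_univ.exists_isMinOn (univ_nonempty (α := Sph n)) hc.continuousOn
  refine ⟨x, le_antisymm (ciInf_le ⟨dist q (bd x) + hdist (F x) X, ?_⟩ x) (le_ciInf fun y => ?_)⟩
  · rintro _ ⟨y, rfl⟩
    exact hx (mem_univ y)
  · exact hx (mem_univ y)

theorem hdist_nonneg {n : ℕ} (X Y : E n) : 0 ≤ hdist X Y := Real.arccos_nonneg _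

/-- the facts about the map `P` -/
theorem rig {n : ℕ} (hn : 2 ≤ n) (hGEO : S_GEO) (hRIGI : S_RIGI) {M : Type} [MetricSpace M]
    {bd : Sph n → M} (hbc : Continuous bd) {F : E n → E n} (hF : CReg F) {ρ : ℝ} (h0 : 0 < ρ)
    (h1 : ρ < 1) (hFρ : ∀ y ∈ closedBall (0 : E n) 1, ‖F y‖ < ρ)
    (hbd : ∀ x y : Sph n, hdist (F x) (F y) ≤ dist (bd x) (bd y)) {K : Type} [MetricSpace K]
    {i : M → K} {j : E n → K} (hG : IsGlu bd F ρ i j) (P : K → E n) (hP : ∀ a, ‖P a‖ ≤ ρ)
    (hPd : ∀ (a : K) (w : Sph n), dist a (j (ρ • (w : E n))) = hdist (P a) (ρ • (w : E n))) :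
    (∀ a b, hdist (P a) (P b) ≤ dist a b) ∧
    (∀ X : E n, ‖X‖ ≤ ρ → X ∉ F '' closedBall 0 1 → P (j X) = X) ∧
    Rig bd univ F (fun q => P (i q)) := by
  obtain ⟨g1, g2, g3, g4⟩ := hGEO n ρ h0 h1
  obtain ⟨c1, c2, c3, c4, -⟩ := SPC.main n
  have hn1 : 1 ≤ n := by omega
  have hw : ∀ w : Sph n, ‖ρ • (w : E n)‖ = ρ := fun w => by
    have h2 : ‖(w : E n)‖ = 1 := by simp
    rw [norm_smul, h2, mul_one, Real.norm_of_nonneg h0.le]
  have hwD : ∀ w : Sph n, ρ • (w : E n) ∉ F '' closedBall 0 1 := by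
    rintro w ⟨y, hy, hyw⟩
    have h2 := hFρ y hy
    rw [hyw, hw w] at h2
    exact lt_irrefl _ h2
  have hFx : ∀ x : Sph n, ‖F x‖ < ρ := fun x => hFρ x (sphere_subset_closedBall x.2)
  have hlip : ∀ a b, hdist (P a) (P b) ≤ dist a b := by
    intro a b
    obtain ⟨w, hw'⟩ := g2 hn1 (P a) (P b) (hP a) (hP b)
    rw [← hPd a w, ← hPd b w] at hw'
    have h2 := dist_triangle a b (j (ρ • (w : E n)))
    linarith
  have hlt : ∀ a, ‖P a‖ < 1 := fun a => (hP a).trans_lt h1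
  have hbdF : ∀ x : Sph n, P (i (bd x)) = F x := by
    intro x
    refine g3 hn1 _ _ (hP _) (hFx x).le fun w => ?_
    rw [← hPd, hG.ij _ _ (hw w).le (hwD w)]
    refine le_antisymm ?_ ?_
    · have h2 : BddBelow (range fun y : Sph n => dist (bd x) (bd y) +
          hdist (F y) (ρ • (w : E n))) := by
        refine ⟨0, ?_⟩
        rintro _ ⟨y, rfl⟩
        exact add_nonneg dist_nonneg (hdist_nonneg _ _)
      have h3 := ciInf_le h2 x
      rw [dist_self, zero_add] at h3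
      exact h3
    · have : Nonempty (Sph n) := ⟨x⟩
      refine le_ciInf fun y => ?_
      have h3 := c3 (F x) (ρ • (w : E n)) (F y) ((hFx x).trans h1) (by rw [hw]; exact h1)
        ((hFx y).trans h1)
      have h4 := hbd x y
      linarith
  refine ⟨hlip, fun X hX hXD => ?_, ?_⟩
  · refine g3 hn1 _ _ (hP _) hX fun w => ?_
    rw [← hPd, hG.jj X _ hX hXD (hw w).le (hwD w)]
  · have hlipX : ∀ q q', hdist (P (i q)) (P (i q')) ≤ dist q q' :=
      fun q q' => (hlip _ _).trans (hG.le q q')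
    have h2 := hRIGI n hn M bd (fun _ => Real.pi / 2) F
      (fun θ q => Real.arcsin (inner ℝ (P (i q)) (θ : E n))) (fun q => P (i q)) ρ h1
      (fun q => hP _) hbc hF.cont ?_ ?_ ?_ (fun θ q => rfl) hbdF
    · have e : {q : M | 0 < (fun _ : M => Real.pi / 2) q} = univ := by
        ext q
        simp only [mem_univ, iff_true]
        show 0 < Real.pi / 2
        positivity
      rw [e] at h2
      exact h2
    · intro θ q q'
      rw [abs_le]
      constructor
      · have h3 := g4 (P (i q')) (P (i q)) θ (hlt _) (hlt _)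
        have h4 := hlipX q' q
        rw [dist_comm] at h4
        linarith
      · have h3 := g4 (P (i q)) (P (i q')) θ (hlt _) (hlt _)
        have h4 := hlipX q q'
        linarith
    · intro θ q
      exact abs_le.2 ⟨Real.neg_pi_div_two_le_arcsin _, Real.arcsin_le_pi_div_two _⟩
    · intro θ q _
      obtain ⟨w, hw'⟩ := g1 (P (i q)) (hP _) θ
      obtain ⟨x, hx⟩ := attained hn1 hbc hF q (ρ • (w : E n))
      refine ⟨x, ?_⟩
      have h3 := g4 (F x) (ρ • (w : E n)) θ ((hFx x).trans h1) (by rw [hw]; exact h1)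
      rw [← hPd, hG.ij _ _ (hw w).le (hwD w), hx] at hw'
      show Real.arcsin (inner ℝ (F x) (θ : E n)) + dist q (bd x) ≤
        Real.arcsin (inner ℝ (P (i q)) (θ : E n))
      linarith

/-- lifting of the centre -/
theorem lift_all {n : ℕ} (hn : 2 ≤ n) {M : Type} [MetricSpace M] [ProperSpace M]
    {F : E n → E n} (hF : CReg F) (X : M → E n) (hX1 : ∀ q, ‖X q‖ < 1)
    (hlip : ∀ q q', hdist (X q) (X q') ≤ dist q q') (q : M)
    (hl : ∀ z ∈ F '' closedBall 0 1, z ≠ 0 → ∃ m, X m = z ∧ dist q m = hdist (X q) z) :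
    ∀ z ∈ F '' closedBall 0 1, ∃ m, X m = z ∧ dist q m = hdist (X q) z := by
  intro z hz
  by_cases hz0 : z = 0
  swap
  · exact hl z hz hz0
  subst hz0
  obtain ⟨c1, c2, c3, c4, -⟩ := SPC.main n
  have hne : Nontrivial (E n) := by
    obtain ⟨m, rfl⟩ : ∃ m, n = m + 1 := ⟨n - 1, by omega⟩
    infer_instance
  have hpc : IsPreconnected (F '' closedBall (0 : E n) 1) :=
    (convex_closedBall (0 : E n) 1).isPreconnected.image F hF.cont
  have hnt : (F '' closedBall (0 : E n) 1).Nontrivial := by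
    have h1 : (closedBall (0 : E n) 1).Nontrivial := by
      obtain ⟨v, hv⟩ := exists_ne (0 : E n)
      refine ⟨0, by simp, ‖v‖⁻¹ • v, ?_, ?_⟩
      · rw [mem_closedBall_zero_iff, norm_smul, norm_inv, norm_norm,
          inv_mul_cancel₀ (norm_ne_zero_iff.2 hv)]
      · intro h
        have h2 : ‖‖v‖⁻¹ • v‖ = 1 := by
          rw [norm_smul, norm_inv, norm_norm, inv_mul_cancel₀ (norm_ne_zero_iff.2 hv)]
        rw [← h, norm_zero] at h2
        exact zero_ne_one h2
    exact h1.image_of_injOn hF.inj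
  have hacc := hpc.preperfect_of_nontrivial hnt 0 hz
  have hcl : (0 : E n) ∈ closure (F '' closedBall (0 : E n) 1 \ {0}) := by
    rw [mem_closure_iff_clusterPt]
    exact (accPt_principal_iff_clusterPt).1 hacc
  obtain ⟨z, hz1, hz2⟩ := mem_closure_iff_seq_limit.1 hcl
  choose m hm1 hm2 using fun k => hl (z k) (hz1 k).1 (hz1 k).2
  have hb : ∀ k, m k ∈ closedBall q Real.pi := fun k => by
    rw [mem_closedBall, dist_comm, hm2]
    exact Real.arccos_le_pi _
  obtain ⟨m₀, -, φ, hφ, hlim⟩ := (isCompact_closedBall q Real.pi).tendsto_subseq hb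
  have hzφ : Tendsto (fun k => z (φ k)) atTop (𝓝 0) := hz2.comp hφ.tendsto_atTop
  have hcont : ∀ Y : E n, Tendsto (fun k => hdist Y (z (φ k))) atTop (𝓝 (hdist Y 0)) := by
    intro Y
    have h6 : Continuous ((fun z : E n × E n => hdist z.1 z.2) ∘ fun z : E n => (Y, z)) :=
      c4.comp (Continuous.prodMk continuous_const continuous_id)
    exact (h6.tendsto 0).comp hzφ
  refine ⟨m₀, ?_, ?_⟩
  · rw [← c1 _ _ (hX1 m₀) (by simp)]
    refine le_antisymm ?_ (hdist_nonneg _ _)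
    have h2 : Tendsto (fun k => dist m₀ (m (φ k))) atTop (𝓝 0) := by
      have h3 := (tendsto_const_nhds (x := m₀)).dist hlim
      rwa [dist_self] at h3
    refine le_of_tendsto_of_tendsto' (hcont (X m₀)) h2 fun k => ?_
    rw [← hm1 (φ k)]
    exact hlip _ _
  · have h2 : Tendsto (fun k => dist q (m (φ k))) atTop (𝓝 (dist q m₀)) :=
      tendsto_const_nhds.dist hlim
    refine tendsto_nhds_unique h2 ((hcont (X q)).congr fun k => ?_)
    exact (hm2 (φ k)).symm

/-- the map is injective -/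
theorem inj {n : ℕ} (hn : 2 ≤ n) {M : Type} [MetricSpace M] [ProperSpace M]
    {bd : Sph n → M} (hbc : Continuous bd) {F : E n → E n} (hF : CReg F) {ρ : ℝ}
    {K : Type} [MetricSpace K] {i : M → K} {j : E n → K} (hG : IsGlu bd F ρ i j) (P : K → E n)
    (hlip : ∀ a b, hdist (P a) (P b) ≤ dist a b)
    (hPj : ∀ X : E n, ‖X‖ ≤ ρ → X ∉ F '' closedBall 0 1 → P (j X) = X)
    (hrig : Rig bd univ F (fun q => P (i q)))
    (hl : ∀ q, ∀ z ∈ F '' closedBall 0 1, z ≠ 0 →
      ∃ m, P (i m) = z ∧ dist q m = hdist (P (i q)) z)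
    (hA : ∀ A : Set K, IsClosed A → (∀ p : E n, ‖p‖ < ρ → ∃ a ∈ A, P a = p) → A = univ) :
    InjOn (fun q => P (i q)) univ := by
  have hn1 : 1 ≤ n := by omega
  have hne : Nonempty (Sph n) := by
    obtain ⟨m, rfl⟩ : ∃ m, n = m + 1 := ⟨n - 1, by omega⟩
    exact ⟨⟨EuclideanSpace.single 0 1, by simp⟩⟩
  have hl' : ∀ q, ∀ z ∈ F '' closedBall 0 1, ∃ m, P (i m) = z ∧ dist q m = hdist (P (i q)) z :=
    fun q => lift_all hn hF (fun q => P (i q)) hrig.lt hrig.lip q (hl q)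
  -- the main step
  have key : ∀ q q', P (i q) = P (i q') → q' ∉ range bd → q = q' := by
    intro q q' hX hq'
    by_contra hqq
    have hd0 : 0 < dist (i q) (i q') := dist_pos.2 fun h => hqq (hG.inj h)
    have hcr : IsClosed (range bd) := (isCompact_range hbc).isClosed
    have hδ : 0 < infDist q' (range bd) :=
      (hcr.notMem_iff_infDist_pos (range_nonempty bd)).1 hq'
    obtain ⟨r, hr⟩ : ∃ r, r = min (dist (i q) (i q') / 2) (infDist q' (range bd)) := ⟨_, rfl⟩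
    have hr0 : 0 < r := by
      rw [hr]
      exact lt_min (by linarith) hδ
    have hr1 : r ≤ dist (i q) (i q') / 2 := by
      rw [hr]
      exact min_le_left _ _
    have hr2 : r ≤ infDist q' (range bd) := by
      rw [hr]
      exact min_le_right _ _
    have hAu := hA (ball (i q') r)ᶜ isOpen_ball.isClosed_compl ?_
    · have h2 : i q' ∈ (ball (i q') r)ᶜ := by
        rw [hAu]
        exact mem_univ _
      exact h2 (mem_ball_self hr0)
    · intro p hp
      by_cases hpD : p ∈ F '' closedBall 0 1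
      · obtain ⟨m, hm1, hm2⟩ := hl' q p hpD
        refine ⟨i m, fun hmem => ?_, hm1⟩
        rw [mem_ball] at hmem
        have h2 := hlip (i q') (i m)
        rw [← hX, hm1, ← hm2, dist_comm (i q') (i m)] at h2
        have h3 := hG.le q m
        have h4 := dist_triangle (i q) (i m) (i q')
        linarith
      · refine ⟨j p, fun hmem => ?_, hPj p hp.le hpD⟩
        rw [mem_ball, dist_comm, hG.ij q' p hp.le hpD] at hmem
        refine absurd hmem (not_lt.2 (hr2.trans (le_ciInf fun x => ?_)))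
        have h2 : infDist q' (range bd) ≤ dist q' (bd x) := infDist_le_dist_of_mem ⟨x, rfl⟩
        have h3 := hdist_nonneg (F x) p
        linarith
  intro q _ q' _ hX
  by_cases hq' : q' ∈ range bd
  · by_cases hq : q ∈ range bd
    · obtain ⟨x, rfl⟩ := hq
      obtain ⟨x', rfl⟩ := hq'
      have h2 := hrig.bdv x
      have h3 := hrig.bdv x'
      have h4 : F (x : E n) = F (x' : E n) := by
        rw [← h2, ← h3]
        exact hX
      have h5 := hF.inj (sphere_subset_closedBall x.2) (sphere_subset_closedBall x'.2) h4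
      rw [Subtype.ext h5]
    · exact (key q' q hX.symm hq).symm
  · exact key q q' hX hq'

/-- the retraction -/
theorem noRet (hHEP : S_HEP) (hGRET : S_GRET) {d : ℕ} {M : Type} [MetricSpace M] (S : Fill d M)
    (hnr : S.NoRetraction) (hbc : Continuous S.bd) (hbi : Function.Injective S.bd)
    {F : E (d + 1) → E (d + 1)} (hF : CReg F) {ρ : ℝ} (h0 : 0 < ρ) (h1 : ρ < 1)
    (hFρ : ∀ y ∈ closedBall (0 : E (d + 1)) 1, ‖F y‖ < ρ) {K : Type} [MetricSpace K]
    {i : M → K} {j : E (d + 1) → K} (hG : IsGlu S.bd F ρ i j) (S' : Fill d K)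
    (hS' : ∀ w : Sph (d + 1), S'.bd w = j (ρ • (w : E (d + 1)))) : S'.NoRetraction := by
  rintro ⟨r, hrc, hr⟩
  have hic : Continuous i := by
    have : LipschitzWith 1 i := LipschitzWith.of_dist_le_mul fun q q' => by
      rw [NNReal.coe_one, one_mul]
      exact hG.le q q'
    exact this.continuous
  obtain ⟨H, w, hH, hH0, hH1⟩ := hGRET (d + 1) (by omega) M S.bd F ρ K i j h0 h1 hbc hF hFρ hG r hrc
    (fun w => by rw [← hS', hr])
  obtain ⟨f', hf', hf'1⟩ := hHEP (d + 1) M S.bd hbc hbi (fun q => r (i q)) (hrc.comp hic) H hH hH0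
  refine hnr ⟨fun q => w.symm (f' q), w.symm.continuous.comp hf', fun x => ?_⟩
  show w.symm (f' (S.bd x)) = x
  rw [hf'1, hH1, Homeomorph.symm_apply_apply]

/-- the volume of the cap -/
theorem vol_le {n : ℕ} {F : E n → E n} (hF : CReg F) {ρ : ℝ}
    (hFρ : ∀ y ∈ closedBall (0 : E n) 1, ‖F y‖ < ρ) {V V' : ENNReal}
    (hV : V ≤ ENNReal.ofReal (∫ x in F '' ball 0 1, (√(1 - ‖x‖ ^ 2))⁻¹))
    (hV' : V' ≤ V + ∫⁻ X in ball (0 : E n) ρ \ F '' closedBall 0 1,
      ENNReal.ofReal (√(1 - ‖X‖ ^ 2))⁻¹) :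
    V' ≤ ∫⁻ p in ball (0 : E n) ρ, ENNReal.ofReal (√(1 - ‖p‖ ^ 2))⁻¹ := by
  have h1 : ENNReal.ofReal (∫ x in F '' ball 0 1, (√(1 - ‖x‖ ^ 2))⁻¹) ≤
      ∫⁻ x in F '' ball 0 1, ENNReal.ofReal (√(1 - ‖x‖ ^ 2))⁻¹ := by
    rw [integral_eq_lintegral_of_nonneg_ae]
    · exact ENNReal.ofReal_toReal_le
    · exact Eventually.of_forall fun x => by positivity
    · have h2 : Measurable fun x : E n => (√(1 - ‖x‖ ^ 2))⁻¹ := by fun_prop
      exact h2.aestronglyMeasurable
  have hD : IsClosed (F '' closedBall (0 : E n) 1) :=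
    ((isCompact_closedBall 0 1).image_of_continuousOn hF.cont).isClosed
  have hdis : Disjoint (F '' ball (0 : E n) 1) (ball (0 : E n) ρ \ F '' closedBall 0 1) := by
    rw [Set.disjoint_left]
    rintro x hx ⟨-, hx2⟩
    exact hx2 (image_mono ball_subset_closedBall hx)
  calc V' ≤ (∫⁻ x in F '' ball 0 1, ENNReal.ofReal (√(1 - ‖x‖ ^ 2))⁻¹) +
      ∫⁻ X in ball (0 : E n) ρ \ F '' closedBall 0 1, ENNReal.ofReal (√(1 - ‖X‖ ^ 2))⁻¹ :=
        hV'.trans (add_le_add (hV.trans h1) le_rfl)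
    _ = ∫⁻ p in F '' ball 0 1 ∪ (ball (0 : E n) ρ \ F '' closedBall 0 1),
        ENNReal.ofReal (√(1 - ‖p‖ ^ 2))⁻¹ :=
      (lintegral_union (isOpen_ball.measurableSet.diff hD.measurableSet) hdis).symm
    _ ≤ ∫⁻ p in ball (0 : E n) ρ, ENNReal.ofReal (√(1 - ‖p‖ ^ 2))⁻¹ := by
      refine lintegral_mono_set (union_subset ?_ sdiff_subset)
      rintro _ ⟨y, hy, rfl⟩
      rw [mem_ball_zero_iff]
      exact hFρ y (ball_subset_closedBall hy)

/-- the theorem -/
theorem final (hGLU : S_GLU) (hFILLG : S_FILLG) (hHEP : S_HEP) (hGRET : S_GRET) (hGEO : S_GEO)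
    (hCORA : S_CORA) (hRIGI : S_RIGI) (R : ℝ) (hR0 : 0 < R) (hR1 : R < Real.pi / 2) :
    ∃ d₀ : ℕ, (Real.sin R ^ 2 ≤ 5 / 41 → d₀ = 0) ∧ ∀ d : ℕ, d₀ ≤ d → 1 ≤ d →
    ∀ (M : Type) [MetricSpace M] [ProperSpace M] (_ : Geod M) (S : Fill d M)
      (_ : S.NoRetraction) (L : NNReal) (_ : LipschitzWith L S.bd) (_ : FullSupp S)
      (_ : ∀ k, ∀ p ∈ (S.chart k).D, (S.chart k).map p ∉ range S.bd)
      (F : E (d + 1) → E (d + 1)) (_ : CReg F)
      (_ : ∀ y ∈ closedBall (0 : E (d + 1)) 1, ‖F y‖ < Real.sin R)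
      (_ : ∀ x y : Sph (d + 1), hdist (F x) (F y) ≤ dist (S.bd x) (S.bd y))
      (_ : S.vol ≤ ENNReal.ofReal (∫ x in F '' ball 0 1, (√(1 - ‖x‖ ^ 2))⁻¹)),
    ∃ Φ : E (d + 1) → M, (∀ y ∈ F '' closedBall 0 1, ∀ z ∈ F '' closedBall 0 1,
        dist (Φ y) (Φ z) = hdist y z) ∧ (∀ x : Sph (d + 1), Φ (F x) = S.bd x) ∧
      Φ '' (F '' closedBall 0 1) = univ := by
  obtain ⟨d₀, hd₀, hC⟩ := hCORA R hR0 hR1
  have h0 : 0 < Real.sin R := Real.sin_pos_of_pos_of_lt_pi hR0 (by linarith [Real.pi_pos])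
  have h1 : Real.sin R < 1 := by
    have h2 : 0 < Real.cos R := Real.cos_pos_of_mem_Ioo ⟨by linarith, hR1⟩
    have h3 := Real.cos_sq_add_sin_sq R
    nlinarith
  refine ⟨d₀, hd₀, fun d hd hd1 M _ _ hgeo S hnr L hL hfs hoff F hF hFρ hbd hV => ?_⟩
  have hbc := hL.continuous
  have hn2 : 2 ≤ d + 1 := by omega
  obtain ⟨c1, c2, c3, c4, -⟩ := SPC.main (d + 1)
  have hbi : Function.Injective S.bd := by
    intro x y hxy
    have h2 := hbd x y
    rw [hxy, dist_self] at h2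
    have h3 := (c1 _ _ ((hFρ x (sphere_subset_closedBall x.2)).trans h1)
      ((hFρ y (sphere_subset_closedBall y.2)).trans h1)).1 (le_antisymm h2 (hdist_nonneg _ _))
    exact Subtype.ext (hF.inj (sphere_subset_closedBall x.2) (sphere_subset_closedBall y.2) h3)
  obtain ⟨K, hK, i, j, hG⟩ := hGLU (d + 1) (by omega) M S.bd F (Real.sin R) h1 hbc hF hFρ hbd
  obtain ⟨S', hS'b, hS'f, hS'v⟩ := hFILLG d M S F (Real.sin R) K i j L h0 h1 hL hF hFρ hG hfs
  have hnr' := noRet hHEP hGRET S hnr hbc hbi hF h0 h1 hFρ hG S' hS'b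
  have hw : ∀ w : Sph (d + 1), ‖Real.sin R • (w : E (d + 1))‖ = Real.sin R := fun w => by
    have h2 : ‖(w : E (d + 1))‖ = 1 := by simp
    rw [norm_smul, h2, mul_one, Real.norm_of_nonneg h0.le]
  have hwD : ∀ w : Sph (d + 1), Real.sin R • (w : E (d + 1)) ∉ F '' closedBall 0 1 := by
    rintro w ⟨y, hy, hyw⟩
    have h2 := hFρ y hy
    rw [hyw, hw w] at h2
    exact lt_irrefl _ h2
  have hS'd : ∀ v w : Sph (d + 1), dist (S'.bd v) (S'.bd w) =
      hdist (Real.sin R • (v : E (d + 1))) (Real.sin R • (w : E (d + 1))) := fun v w => by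
    rw [hS'b, hS'b, hG.jj _ _ (hw v).le (hwD v) (hw w).le (hwD w)]
  have hS'c : Continuous S'.bd := by
    rw [continuous_iff_continuousAt]
    intro v
    have h5 : Continuous fun w : Sph (d + 1) =>
        ((Real.sin R • (w : E (d + 1)), Real.sin R • (v : E (d + 1))) :
          E (d + 1) × E (d + 1)) := by fun_prop
    have h6 : Continuous ((fun z : E (d + 1) × E (d + 1) => hdist z.1 z.2) ∘ fun w : Sph (d + 1) =>
        (Real.sin R • (w : E (d + 1)), Real.sin R • (v : E (d + 1)))) := c4.comp h5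
    have h7 := h6.tendsto v
    have h8 : ((fun z : E (d + 1) × E (d + 1) => hdist z.1 z.2) ∘ fun w : Sph (d + 1) =>
        (Real.sin R • (w : E (d + 1)), Real.sin R • (v : E (d + 1)))) v = 0 :=
      (c1 _ _ (by rw [hw]; exact h1) (by rw [hw]; exact h1)).2 rfl
    rw [h8] at h7
    refine tendsto_iff_dist_tendsto_zero.2 (h7.congr fun w => ?_)
    exact (hS'd w v).symm
  obtain ⟨P, hP1, hP2, hP3⟩ := hC d hd K S' hnr' hS'c hS'f (fun v w => (hS'd v w).ge)
    (vol_le hF hFρ hV hS'v)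
  obtain ⟨r1, r2, r3⟩ := rig hn2 hGEO hRIGI hbc hF h0 h1 hFρ hbd hG P hP1
    (fun a w => by rw [← hS'b]; exact hP2 a w)
  have hcl : ∀ x, S.bd x ∈ closure (univ \ range S.bd) := by
    intro x
    rw [_root_.mem_closure_iff]
    intro W hW hxW
    obtain ⟨k, hk⟩ := hfs W hW ⟨_, hxW⟩
    obtain ⟨p, hp1, hp2⟩ := nonempty_of_measure_ne_zero hk
    exact ⟨_, hp2, mem_univ _, hoff k p hp1⟩
  obtain ⟨j1, j2⟩ := Fin.isoa (d + 1) hn2 M hgeo S.bd univ F (fun q => P (i q)) r3 hF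
    (fun x => mem_univ _) hcl
  have hl : ∀ q, ∀ z ∈ F '' closedBall 0 1, z ≠ 0 →
      ∃ m, P (i m) = z ∧ dist q m = hdist (P (i q)) z := by
    intro q z hz hz0
    obtain ⟨m, -, hm1, hm2⟩ := j2 q (mem_univ q) z hz hz0
    exact ⟨m, hm1, hm2⟩
  have hinj := inj hn2 hbc hF hG P r1 r2 r3 hl hP3
  obtain ⟨Φ, f1, f2, f3, -⟩ := Fin.isob (d + 1) hn2 M S.bd univ F (fun q => P (i q)) r3 hF
    (fun x => mem_univ _) (fun q hq => (j1 q hq).1) j2 hinj
  exact ⟨Φ, f1, f2, univ_subset_iff.1 f3⟩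

end Pool.Agent.H780.HG.Asm
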