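import Pool.Agent.H780.HG.Stm
import Pool.Graph.R_pool_sql_team_seeded_3997aac3.Q183.CR.G

/-!
# CORA: the case of equality for caps, without shortest paths
-/

set_option autoImplicit false

open MeasureTheory Metric Set Filter Topology InnerProductGeometry

namespace Pool.Agent.H780.HG.CORA

open Pool.Agent.H241R3.FV Pool.Agent.N526.CP Pool.Agent.H780.RG Pool.Agent.H780.HG
open Pool.Agent.Q183.CR (Cor cor_closed cor_of_UE FE_cor XX_self strict_sum pt_bp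
  total_eq total_eq0 vol_sub vol_sub0)
open Pool.Agent.Q183.CN (ek bp sph_norm ball_lf)
open Pool.Agent.Q183.HD (par_exists)
open Pool.Agent.Q188.FC (lf)
open Pool.Agent.Q183.CF (UE FE)

theorem exists_cJ (d : ℕ) : ∃ (c : E (d + 2)) (J : E (d + 1) →ₗᵢ[ℝ] E (d + 2)), ‖c‖ = 1 ∧
    ∀ v, inner ℝ (J v) c = 0 := by
  have hc : ‖(EuclideanSpace.single 0 1 : E (d + 2))‖ = 1 := by simp
  have hc0 : (EuclideanSpace.single 0 1 : E (d + 2)) ≠ 0 := by
    intro h
    rw [h, norm_zero] at hc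
    exact zero_ne_one hc
  have : Fact (Module.finrank ℝ (E (d + 2)) = (d + 1) + 1) := ⟨by simp⟩
  refine ⟨EuclideanSpace.single 0 1, (Submodule.subtypeₗᵢ _).comp
    (OrthonormalBasis.fromOrthogonalSpanSingleton (𝕜 := ℝ) (d + 1)
      hc0).repr.symm.toLinearIsometry, hc, fun v => ?_⟩
  exact Submodule.mem_orthogonal_singleton_iff_inner_left.1 (Subtype.property _)

theorem sqrt_cap {d : ℕ} {R : ℝ} (h1 : 0 < Real.sin R) (h2 : 0 < Real.cos R) (v : Sph (d + 1)) :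
    √(1 - ‖Real.sin R • (v : E (d + 1))‖ ^ 2) = Real.cos R := by
  have h3 := Real.cos_sq_add_sin_sq R
  rw [norm_smul, sph_norm, mul_one, Real.norm_of_nonneg h1.le,
    show 1 - Real.sin R ^ 2 = Real.cos R ^ 2 by linarith, Real.sqrt_sq h2.le]

theorem hdist_cap {d : ℕ} {R : ℝ} (h1 : 0 < Real.sin R) (h2 : 0 < Real.cos R)
    (p : E (d + 1)) (w : Sph (d + 1)) :
    hdist p (Real.sin R • (w : E (d + 1))) =
      Real.arccos (√(1 - ‖p‖ ^ 2) * Real.cos R + Real.sin R * inner ℝ p (w : E (d + 1))) := by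
  unfold hdist
  rw [sqrt_cap h1 h2, real_inner_smul_right]

theorem hdist_cap2 {d : ℕ} {R : ℝ} (h1 : 0 < Real.sin R) (h2 : 0 < Real.cos R)
    (v w : Sph (d + 1)) :
    hdist (Real.sin R • (v : E (d + 1))) (Real.sin R • (w : E (d + 1))) =
      Real.arccos (Real.cos R ^ 2 + Real.sin R ^ 2 * inner ℝ (v : E (d + 1)) (w : E (d + 1))) := by
  rw [hdist_cap h1 h2, sqrt_cap h1 h2, real_inner_smul_left]
  congr 1
  ring

/-- the first part of the proof of `core` -/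
theorem core1 {R : ℝ} (hR0 : 0 < R) (hR1 : R < Real.pi / 2) {d : ℕ} {K : Type} [MetricSpace K]
    (S : Fill d K) (hbdc : Continuous S.bd) (hsupp : FullSupp S)
    {c : E (d + 2)} (hc : ‖c‖ = 1)
    {J : E (d + 1) →ₗᵢ[ℝ] E (d + 2)} (hJ : ∀ v, inner ℝ (J v) c = 0)
    (hekq : ∀ x q q', |ek (Real.sin R) S.bd x q - ek (Real.sin R) S.bd x q'| ≤ dist q q')
    (hVf : S.vol ≠ ⊤)
    (hvol : S.vol ≤ ∫⁻ p in ball (0 : E (d + 1)) (Real.sin R), ENNReal.ofReal (lf p))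
    (htot : ∀ i, ∀ᵐ x ∂(volume : Measure (E (d + 1))), x ∈ (S.chart i).D →
      ∃ p : E (d + 1), ‖p‖ < Real.sin R ∧
        ∀ y, UE (ek (Real.sin R) S.bd) ((S.chart i).map x) y = inner ℝ p y)
    (hsub : ∀ A : Set K, IsClosed A → (∀ p : E (d + 1), ‖p‖ < Real.sin R →
      ∃ q ∈ A, FE (ek (Real.sin R) S.bd) q = fun y => (inner ℝ p y : ℝ)) →
      ∫⁻ p in ball (0 : E (d + 1)) (Real.sin R), ENNReal.ofReal (lf p) ≤
      ∑' i, ∫⁻ x in (S.chart i).D ∩ {x | (S.chart i).map x ∈ A},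
        ENNReal.ofReal √((S.chart i).G x).det) :
    ∃ P : K → E (d + 1), (∀ q, ‖P q‖ ≤ Real.sin R) ∧
    (∀ (q : K) (w : Sph (d + 1)), dist q (S.bd w) = hdist (P q) (Real.sin R • (w : E (d + 1)))) ∧
    ∀ A : Set K, IsClosed A → (∀ p : E (d + 1), ‖p‖ < Real.sin R → ∃ q ∈ A, P q = p) →
      A = univ := by
  have h1 : 0 < Real.sin R :=
    Real.sin_pos_of_pos_of_lt_pi hR0 (by linarith [Real.pi_pos])
  have h2 : 0 < Real.cos R := Real.cos_pos_of_mem_Ioo ⟨by linarith, hR1⟩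
  have hcl : IsClosed {q | ∃ p, Cor R c J S.bd q p} := cor_closed hekq
  have hall : ∀ q, ∃ p, Cor R c J S.bd q p := by
    by_contra hcon
    push Not at hcon
    obtain ⟨q, hq⟩ := hcon
    obtain ⟨i, hi⟩ := hsupp {q | ∃ p, Cor R c J S.bd q p}ᶜ hcl.isOpen_compl
      ⟨q, fun ⟨p, hp⟩ => hq p hp⟩
    apply hi
    refine measure_mono_null ?_ (htot i)
    intro x hx
    show ¬ (x ∈ (S.chart i).D → ∃ p : E (d + 1), ‖p‖ < Real.sin R ∧
      ∀ y, UE (ek (Real.sin R) S.bd) ((S.chart i).map x) y = inner ℝ p y)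
    intro h5
    obtain ⟨p, hp, hU⟩ := h5 hx.1
    exact hx.2 ⟨p, cor_of_UE hc hJ hR0 hR1 hbdc hp hU⟩
  choose P hP using hall
  refine ⟨P, fun q => (hP q).1, fun q w => ?_, fun A hA hcov => ?_⟩
  · rw [(hP q).2.2 w, pt_bp hc hJ, hdist_cap h1 h2]
  · by_contra hne
    have hne' : (Aᶜ).Nonempty := nonempty_compl.2 hne
    obtain ⟨i, hi⟩ := hsupp Aᶜ hA.isOpen_compl hne'
    have hlt := strict_sum S hVf hA (i := i) hi
    refine absurd (hlt.trans_le hvol) (not_lt.2 ?_)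
    refine hsub A hA fun p hp => ?_
    obtain ⟨q, hqA, hq⟩ := hcov p hp
    refine ⟨q, hqA, ?_⟩
    rw [FE_cor (hP q), hq]

theorem main : S_CORA := by
  intro R hR0 hR1
  have h1 : 0 < Real.sin R :=
    Real.sin_pos_of_pos_of_lt_pi hR0 (by linarith [Real.pi_pos])
  have h2 : 0 < Real.cos R := Real.cos_pos_of_mem_Ioo ⟨by linarith, hR1⟩
  have h3 := Real.cos_sq_add_sin_sq R
  have h4 : Real.sin R < 1 := by nlinarith
  by_cases h5 : Real.sin R ^ 2 ≤ 5 / 41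
  · refine ⟨0, fun _ => rfl, fun d _ K _ S hT hbdc hsupp hdist hvol => ?_⟩
    obtain ⟨c, J, hc, hJ⟩ := exists_cJ d
    have hns : ∀ v w : Sph (d + 1), Real.arccos (Real.cos R ^ 2 + Real.sin R ^ 2 *
        inner ℝ (v : E (d + 1)) (w : E (d + 1))) ≤ dist (S.bd v) (S.bd w) := by
      intro v w
      rw [← hdist_cap2 h1 h2]
      exact hdist v w
    have hR : 41 * Real.sin R ^ 2 ≤ 5 := by linarith
    have hsc : Real.sin R ≤ Real.cos R := by
      by_contra hh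
      have hh' := not_le.1 hh
      nlinarith
    have hpar : Pool.Agent.Q183.CM.Par (d + 1) (√2 * Real.sin R) (Real.sin R) := by
      refine ⟨Nat.succ_pos d, by positivity, h1, hR, ?_⟩
      rw [mul_pow, Real.sq_sqrt (by norm_num)]
    have hdk := Pool.Agent.Q183.CM.ek_dk (Nat.succ_pos d) h1 h2 h3 hsc hns
    have hvol' : S.vol ≤ ∫⁻ p in ball (0 : E (d + 1)) (Real.sin R), ENNReal.ofReal (lf p) := hvol
    have hfin : ∫⁻ p in ball (0 : E (d + 1)) (Real.sin R), ENNReal.ofReal (lf p) ≠ ⊤ := by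
      rw [ball_lf d hR0 hR1]
      exact ENNReal.ofReal_ne_top
    refine core1 hR0 hR1 S hbdc hsupp hc hJ hdk.q (ne_top_of_le_ne_top hfin hvol') hvol'
      (total_eq0 hpar S hdk (fun v w => (Pool.Agent.Q183.CN.angle_le_cap h1 h3 v w).trans
        (hns v w)) (Or.inr hT) hfin hvol')
      fun A hA hcv => vol_sub0 hpar S hdk hA fun p hp => ?_
    obtain ⟨q, hqA, hq⟩ := hcv p hp
    refine ⟨q, hqA, ?_⟩
    rw [hq]
    unfold Pool.Agent.Q183.CN.HH
    simp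
  · obtain ⟨k, κ, κ', ρ', L, eps, n₀, hκ0, hκ, hpar⟩ := par_exists h1 h4
    refine ⟨n₀, fun h => absurd h h5, fun d hd K _ S hT hbdc hsupp hdist hvol => ?_⟩
    obtain ⟨c, J, hc, hJ⟩ := exists_cJ d
    have hns : ∀ v w : Sph (d + 1), Real.arccos (Real.cos R ^ 2 + Real.sin R ^ 2 *
        inner ℝ (v : E (d + 1)) (w : E (d + 1))) ≤ dist (S.bd v) (S.bd w) := by
      intro v w
      rw [← hdist_cap2 h1 h2]
      exact hdist v w
    have hdk := Pool.Agent.Q183.HD.ek_dk (Nat.succ_pos d) h1 h2 h3 hns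
    have hul := Pool.Agent.Q183.HD.ek_ul (Nat.succ_pos d) h1 h2 h3 hκ0 hκ S.bd
    have hpar' := hpar (d + 1) (by omega)
    have hvol' : S.vol ≤ ∫⁻ p in ball (0 : E (d + 1)) (Real.sin R), ENNReal.ofReal (lf p) := hvol
    have hfin : ∫⁻ p in ball (0 : E (d + 1)) (Real.sin R), ENNReal.ofReal (lf p) ≠ ⊤ := by
      rw [ball_lf d hR0 hR1]
      exact ENNReal.ofReal_ne_top
    refine core1 hR0 hR1 S hbdc hsupp hc hJ hdk.q (ne_top_of_le_ne_top hfin hvol') hvol'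
      (total_eq hpar' S hdk hul (fun v w => (Pool.Agent.Q183.CN.angle_le_cap h1 h3 v w).trans
        (hns v w)) (Or.inr hT) hfin hvol')
      fun A hA hcv => vol_sub hpar' S hdk hul hA fun p hp => ?_
    obtain ⟨q, hqA, hq⟩ := hcv p hp
    refine ⟨q, hqA, ?_⟩
    rw [hq]
    exact XX_self k p

end Pool.Agent.H780.HG.CORA
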