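import Pool.Agent.H780.HG.Stm
import Pool.Agent.H780.RG.SPC

set_option autoImplicit false

open MeasureTheory Metric Set Filter Topology InnerProductGeometry

namespace Pool.Agent.H780.HG.FILLG

open Pool.Agent.H241R3.FV Pool.Agent.N526.CP Pool.Agent.H780.RG Pool.Agent.H780.HG

/-- the region -/
def Reg {n : ℕ} (F : E n → E n) : Set (E n) := F '' closedBall 0 1

lemma reg_closed {n : ℕ} {F : E n → E n} (hF : CReg F) : IsClosed (Reg F) :=
  ((isCompact_closedBall (0 : E n) 1).image_of_continuousOn hF.cont).isClosed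

/-- charts of the filling -/
noncomputable def chI {n : ℕ} {M K : Type} [MetricSpace M] [MetricSpace K] (C : RChart n M) (i : M → K)
    (hle : ∀ q q', dist (i q) (i q') ≤ dist q q') : RChart n K where
  U := C.U
  isOpen_U := C.isOpen_U
  D := C.D
  meas_D := C.meas_D
  D_sub := C.D_sub
  map := fun x => i (C.map x)
  G := C.G
  cont_G := C.cont_G
  pos_G := C.pos_G
  dist_le := fun x y h => (hle _ _).trans (C.dist_le x y h)

/-- the chart of the cap -/
noncomputable def chH (hH : S_HLEN) {n : ℕ} {M K : Type} [MetricSpace M] [MetricSpace K]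
    (bd : Sph n → M) (F : E n → E n) (ρ : ℝ) (i : M → K) (j : E n → K) (hρ : ρ < 1)
    (hF : CReg F) (hG : IsGlu bd F ρ i j) : RChart n K where
  U := ball 0 ρ \ Reg F
  isOpen_U := isOpen_ball.sdiff (reg_closed hF)
  D := ball 0 ρ \ Reg F
  meas_D := (isOpen_ball.sdiff (reg_closed hF)).measurableSet
  D_sub := Subset.rfl
  map := j
  G := GH
  cont_G := (hH n).1.mono (fun X hX => ball_subset_ball hρ.le hX.1)
  pos_G := fun X hX => ((hH n).2.1 X (ball_subset_ball hρ.le hX.1)).1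
  dist_le := by
    intro x y h
    have hx := h (left_mem_segment ℝ x y)
    have hy := h (right_mem_segment ℝ x y)
    rw [hG.jj x y (mem_ball_zero_iff.1 hx.1).le hx.2 (mem_ball_zero_iff.1 hy.1).le hy.2]
    exact (hH n).2.2 x (ball_subset_ball hρ.le hx.1) y (ball_subset_ball hρ.le hy.1)

lemma unit_mem {n : ℕ} {y : E n} (h : y ≠ 0) : ‖y‖⁻¹ • y ∈ sphere (0 : E n) 1 := by
  rw [mem_sphere_zero_iff_norm, norm_smul, norm_inv, norm_norm, inv_mul_cancel₀ (norm_ne_zero_iff.2 h)]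

lemma unit_dist {n : ℕ} {x y : E n} (hx : 1 / 2 < ‖x‖) (hy : 1 / 2 < ‖y‖) :
    ‖‖x‖⁻¹ • x - ‖y‖⁻¹ • y‖ ≤ 4 * ‖y - x‖ := by
  have hx0 : 0 < ‖x‖ := by linarith
  have hy0 : 0 < ‖y‖ := by linarith
  have e : ‖x‖⁻¹ • x - ‖y‖⁻¹ • y = ‖x‖⁻¹ • (x - y) + (‖x‖⁻¹ - ‖y‖⁻¹) • y := by
    rw [smul_sub, sub_smul]; abel
  rw [e]
  refine (norm_add_le _ _).trans ?_
  have h1 : ‖‖x‖⁻¹ • (x - y)‖ ≤ 2 * ‖y - x‖ := by
    rw [norm_smul, norm_inv, norm_norm, norm_sub_rev x y]
    apply mul_le_mul_of_nonneg_right _ (norm_nonneg _)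
    rw [inv_le_comm₀ hx0 (by norm_num)]
    linarith
  have h2 : ‖(‖x‖⁻¹ - ‖y‖⁻¹) • y‖ ≤ 2 * ‖y - x‖ := by
    rw [norm_smul, Real.norm_eq_abs]
    have e2 : ‖x‖⁻¹ - ‖y‖⁻¹ = (‖y‖ - ‖x‖) * (‖x‖⁻¹ * ‖y‖⁻¹) := by
      field_simp
    rw [e2, abs_mul, abs_of_pos (by positivity : 0 < ‖x‖⁻¹ * ‖y‖⁻¹)]
    have e3 : |‖y‖ - ‖x‖| * (‖x‖⁻¹ * ‖y‖⁻¹) * ‖y‖ = ‖x‖⁻¹ * |‖y‖ - ‖x‖| := by
      field_simp
    rw [e3]
    apply mul_le_mul _ (abs_norm_sub_norm_le _ _) (abs_nonneg _) (by norm_num)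
    rw [inv_le_comm₀ hx0 (by norm_num)]
    linarith
  linarith

lemma gnorm_diag {n : ℕ} (c : ℝ) (hc : 0 ≤ c) (v : E n) :
    gnorm (Matrix.diagonal (fun _ : Fin n => c ^ 2)) v = c * ‖v‖ := by
  unfold gnorm
  have h1 : ∑ i, ∑ j, v i * Matrix.diagonal (fun _ : Fin n => c ^ 2) i j * v j = c ^ 2 * ‖v‖ ^ 2 := by
    rw [EuclideanSpace.norm_sq_eq, Finset.mul_sum]
    apply Finset.sum_congr rfl
    intro i _
    rw [Finset.sum_eq_single i]
    · rw [Matrix.diagonal_apply_eq, Real.norm_eq_abs, sq_abs]; ring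
    · intro j _ hj
      rw [Matrix.diagonal_apply_ne _ hj.symm]; ring
    · intro h; exact absurd (Finset.mem_univ i) h
  rw [h1, ← mul_pow, Real.sqrt_sq (by positivity)]

open Classical in
/-- the chart of the seam -/
noncomputable def chS {n : ℕ} {M K : Type} [MetricSpace M] [MetricSpace K]
    (bd : Sph n → M) (i : M → K) (j : E n → K) (L : NNReal) (hL : LipschitzWith L bd)
    (hle : ∀ q q', dist (i q) (i q') ≤ dist q q') : RChart n K where
  U := {y | 1 / 2 < ‖y‖}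
  isOpen_U := isOpen_lt continuous_const continuous_norm
  D := sphere 0 1
  meas_D := isClosed_sphere.measurableSet
  D_sub := by
    intro y hy
    rw [mem_sphere_zero_iff_norm] at hy
    show 1 / 2 < ‖y‖
    rw [hy]; norm_num
  map := fun y => if h : y ≠ 0 then i (bd ⟨‖y‖⁻¹ • y, unit_mem h⟩) else j 0
  G := fun _ => Matrix.diagonal (fun _ => (4 * (L : ℝ) + 1) ^ 2)
  cont_G := continuousOn_const
  pos_G := fun _ _ => Matrix.PosDef.diagonal (fun _ => by positivity)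
  dist_le := by
    intro x y h
    have hx : 1 / 2 < ‖x‖ := h (left_mem_segment ℝ x y)
    have hy : 1 / 2 < ‖y‖ := h (right_mem_segment ℝ x y)
    have hx0 : x ≠ 0 := by rintro rfl; rw [norm_zero] at hx; linarith
    have hy0 : y ≠ 0 := by rintro rfl; rw [norm_zero] at hy; linarith
    rw [dif_pos hx0, dif_pos hy0]
    have e : (fun _ : ℝ => gnorm (Matrix.diagonal (fun _ : Fin n => (4 * (L : ℝ) + 1) ^ 2)) (y - x)) =
        fun _ => (4 * (L : ℝ) + 1) * ‖y - x‖ := by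
      funext _
      exact gnorm_diag _ (by positivity) _
    rw [e, intervalIntegral.integral_const, sub_zero, one_smul]
    refine (hle _ _).trans ((hL.dist_le_mul _ _).trans ?_)
    have h3 : dist (⟨‖x‖⁻¹ • x, unit_mem hx0⟩ : Sph n) ⟨‖y‖⁻¹ • y, unit_mem hy0⟩ ≤ 4 * ‖y - x‖ := by
      rw [Subtype.dist_eq, dist_eq_norm]
      exact unit_dist hx hy
    calc (L : ℝ) * dist (⟨‖x‖⁻¹ • x, unit_mem hx0⟩ : Sph n) ⟨‖y‖⁻¹ • y, unit_mem hy0⟩
        ≤ L * (4 * ‖y - x‖) := mul_le_mul_of_nonneg_left h3 (NNReal.coe_nonneg L)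
      _ ≤ (4 * (L : ℝ) + 1) * ‖y - x‖ := by
          have := norm_nonneg (y - x)
          linarith

lemma capT {n : ℕ} (f : E n → ℝ) (hf : Continuous f) (A : Set (E n)) (hA : IsClosed A) (X : E n)
    (ρ ε : ℝ) (h0 : 0 < ρ) (hX : ‖X‖ ≤ ρ) (hXA : X ∉ A) (hfX : f X < ε) :
    ((ball 0 ρ \ A) ∩ {Y | f Y < ε}).Nonempty := by
  have hct : Continuous fun t : ℝ => t • X := by fun_prop
  have ho : IsOpen ((fun t : ℝ => t • X) ⁻¹' (Aᶜ ∩ {Y | f Y < ε})) :=
    (hA.isOpen_compl.inter (isOpen_lt hf continuous_const)).preimage hct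
  have h1m : (1 : ℝ) ∈ ((fun t : ℝ => t • X) ⁻¹' (Aᶜ ∩ {Y | f Y < ε})) := by
    rw [mem_preimage, one_smul]
    exact ⟨hXA, hfX⟩
  obtain ⟨δ, hδ, hb⟩ := Metric.isOpen_iff.1 ho 1 h1m
  obtain ⟨t, t0, t1, t2⟩ : ∃ t : ℝ, 0 < t ∧ t < 1 ∧ t ∈ ball (1 : ℝ) δ := by
    have m1 : 0 < min (δ / 2) (1 / 2) := lt_min (by linarith) (by norm_num)
    have m2 : min (δ / 2) (1 / 2) ≤ 1 / 2 := min_le_right _ _
    have m3 : min (δ / 2) (1 / 2) ≤ δ / 2 := min_le_left _ _
    refine ⟨1 - min (δ / 2) (1 / 2), by linarith, by linarith, ?_⟩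
    rw [mem_ball, Real.dist_eq, abs_lt]
    constructor <;> linarith
  have h5 := hb t2
  rw [mem_preimage] at h5
  refine ⟨t • X, ⟨?_, h5.1⟩, h5.2⟩
  rw [mem_ball_zero_iff, norm_smul, Real.norm_eq_abs, abs_of_pos t0]
  calc t * ‖X‖ ≤ t * ρ := mul_le_mul_of_nonneg_left hX t0.le
    _ < 1 * ρ := mul_lt_mul_of_pos_right t1 h0
    _ = ρ := one_mul ρ

lemma hdc {n : ℕ} (X : E n) : ∃ f : E n → ℝ, Continuous f ∧ ∀ Y, f Y = hdist Y X := by
  have h : (Continuous fun z : E n × E n => hdist z.1 z.2) := (SPC.main n).2.2.2.1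
  have h2 : Continuous fun Y : E n => (Y, X) := Continuous.prodMk continuous_id continuous_const
  have h3 := Continuous.comp h h2
  refine ⟨_, h3, fun Y => ?_⟩
  simp only [Function.comp_apply]

lemma capV {n : ℕ} {M K : Type} [MetricSpace M] [MetricSpace K]
    (bd : Sph n → M) (F : E n → E n) (ρ : ℝ) (i : M → K) (j : E n → K) (h0 : 0 < ρ) (h1 : ρ < 1)
    (hF : CReg F) (hG : IsGlu bd F ρ i j) (W : Set K) (hW : IsOpen W) (X : E n) (hX : ‖X‖ ≤ ρ)
    (hXD : X ∉ F '' closedBall 0 1) (ha : j X ∈ W) :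
    volume {x : E n | x ∈ ball (0 : E n) ρ \ Reg F ∧ j x ∈ W} ≠ 0 := by
  obtain ⟨ε, hε, hball⟩ := Metric.isOpen_iff.1 hW _ ha
  have hX1 : ‖X‖ < 1 := lt_of_le_of_lt hX h1
  have s1 := (SPC.main n).1
  have hXX : hdist X X = 0 := (s1 X X hX1 hX1).2 rfl
  obtain ⟨f, hf, hfe⟩ := hdc X
  have hVo : IsOpen ((ball 0 ρ \ Reg F) ∩ {Y | f Y < ε}) :=
    (isOpen_ball.sdiff (reg_closed hF)).inter (isOpen_lt hf continuous_const)
  have hVn := capT f hf (Reg F) (reg_closed hF) X ρ ε h0 hX hXD (by rw [hfe, hXX]; exact hε)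
  have hsub : ((ball 0 ρ \ Reg F) ∩ {Y | f Y < ε}) ⊆
      {x : E n | x ∈ ball (0 : E n) ρ \ Reg F ∧ j x ∈ W} := by
    intro Y hY
    refine ⟨hY.1, hball ?_⟩
    have h2 : f Y < ε := hY.2
    rw [mem_ball, hG.jj Y X (mem_ball_zero_iff.1 hY.1.1).le hY.1.2 hX hXD, ← hfe]
    exact h2
  exact ((hVo.measure_pos volume hVn).trans_le (measure_mono hsub)).ne'

theorem main (hH : S_HLEN) : S_FILLG := by
  intro d M _ S F ρ K _ i j L h0 h1 hL hF hFρ hG hFS
  classical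
  have hρn : ∀ w : Sph (d + 1), ‖ρ • (w : E (d + 1))‖ = ρ := by
    intro w
    have hw : ‖(w : E (d + 1))‖ = 1 := by simpa using w.2
    rw [norm_smul, hw, mul_one, Real.norm_of_nonneg h0.le]
  have hreg : ∀ X : E (d + 1), ‖X‖ = ρ → X ∉ F '' closedBall 0 1 := by
    rintro X hX ⟨y, hy, rfl⟩
    exact (hFρ y hy).ne hX
  have : Countable S.ι := S.countable
  let S' : Fill d K :=
    { ι := S.ι ⊕ Bool
      countable := inferInstance
      chart := fun k => Sum.elim (fun k => chI (S.chart k) i hG.le)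
        (fun b => cond b (chH hH S.bd F ρ i j h1 hF hG) (chS S.bd i j L hL hG.le)) k
      bd := fun w => j (ρ • (w : E (d + 1)))
      cover := by
        intro a
        rcases hG.surj a with ⟨q, rfl⟩ | ⟨X, hX, hXD, rfl⟩
        · rcases S.cover q with ⟨x, rfl⟩ | ⟨k, p, hp, rfl⟩
          · right
            refine ⟨Sum.inr false, (x : E (d + 1)), x.2, ?_⟩
            have hx : ‖(x : E (d + 1))‖ = 1 := by simpa using x.2
            have hx0 : (x : E (d + 1)) ≠ 0 := by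
              intro h; rw [h, norm_zero] at hx; exact zero_ne_one hx
            show (if h : (x : E (d + 1)) ≠ 0 then i (S.bd ⟨‖(x : E (d + 1))‖⁻¹ • (x : E (d + 1)), unit_mem h⟩)
              else j 0) = i (S.bd x)
            rw [dif_pos hx0]
            congr 2
            apply Subtype.ext
            show ‖(x : E (d + 1))‖⁻¹ • (x : E (d + 1)) = x
            rw [hx, inv_one, one_smul]
          · right
            exact ⟨Sum.inl k, p, hp, rfl⟩
        · rcases hX.lt_or_eq with h | h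
          · right
            exact ⟨Sum.inr true, X, ⟨mem_ball_zero_iff.2 h, hXD⟩, rfl⟩
          · left
            have hX0 : X ≠ 0 := by
              intro h'; rw [h', norm_zero] at h; linarith
            refine ⟨⟨‖X‖⁻¹ • X, unit_mem hX0⟩, ?_⟩
            show j (ρ • (‖X‖⁻¹ • X)) = j X
            rw [h, smul_smul, mul_inv_cancel₀ h0.ne', one_smul] }
  refine ⟨S', fun w => rfl, ?_, ?_⟩
  · -- full support
    intro W hW hWn
    obtain ⟨a, ha⟩ := hWn
    rcases hG.surj a with ⟨q, rfl⟩ | ⟨X, hX, hXD, rfl⟩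
    · have hic : Continuous i := by
        have : LipschitzWith 1 i := LipschitzWith.of_dist_le_mul (fun x y => by
          rw [NNReal.coe_one, one_mul]; exact hG.le x y)
        exact this.continuous
      obtain ⟨k, hk⟩ := hFS (i ⁻¹' W) (hW.preimage hic) ⟨q, ha⟩
      exact ⟨Sum.inl k, hk⟩
    · exact ⟨Sum.inr true, capV S.bd F ρ i j h0 h1 hF hG W hW X hX hXD ha⟩
  · -- the volume
    have e1 : S'.vol = (∑' k : S.ι, ∫⁻ p in (S.chart k).D, ENNReal.ofReal √((S.chart k).G p).det) +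
        ∑' b : Bool, ∫⁻ p in (S'.chart (Sum.inr b)).D, ENNReal.ofReal √((S'.chart (Sum.inr b)).G p).det := by
      show (∑' k : S.ι ⊕ Bool, ∫⁻ p in (S'.chart k).D, ENNReal.ofReal √((S'.chart k).G p).det) = _
      rw [Summable.tsum_sum ENNReal.summable ENNReal.summable]
      rfl
    rw [e1]
    have e2 : (∑' b : Bool, ∫⁻ p in (S'.chart (Sum.inr b)).D, ENNReal.ofReal √((S'.chart (Sum.inr b)).G p).det) =
        ∫⁻ X in ball (0 : E (d + 1)) ρ \ F '' closedBall 0 1, ENNReal.ofReal (√(1 - ‖X‖ ^ 2))⁻¹ := by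
      rw [tsum_bool]
      have z : ∫⁻ p in (S'.chart (Sum.inr false)).D, ENNReal.ofReal √((S'.chart (Sum.inr false)).G p).det = 0 := by
        apply setLIntegral_measure_zero
        exact Measure.addHaar_sphere_of_ne_zero volume _ one_ne_zero
      rw [z, zero_add]
      show ∫⁻ p in ball (0 : E (d + 1)) ρ \ Reg F, ENNReal.ofReal √(GH p).det = _
      apply setLIntegral_congr_fun (isOpen_ball.sdiff (reg_closed hF)).measurableSet
      intro X hX
      show ENNReal.ofReal √(GH X).det = ENNReal.ofReal (√(1 - ‖X‖ ^ 2))⁻¹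
      rw [((hH (d + 1)).2.1 X (ball_subset_ball h1.le hX.1)).2]
    rw [e2]
    exact le_rfl

end Pool.Agent.H780.HG.FILLG
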