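import Pool.Agent.H780.HG.Stm

/-!
# Project HG, task GEO: spherical geometry of the cap
-/

set_option autoImplicit false

open MeasureTheory Metric Set Filter Topology InnerProductGeometry

namespace Pool.Agent.H780.HG.GEO

open Pool.Agent.H241R3.FV Pool.Agent.N526.CP Pool.Agent.H780.RG

variable {n : ℕ}

/-- the point of the sphere -/
noncomputable def P (X : E n) : WithLp 2 (E n × ℝ) := WithLp.toLp 2 (X, √(1 - ‖X‖ ^ 2))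

theorem hin (X Y : E n) : inner ℝ (P X) (P Y) =
    √(1 - ‖X‖ ^ 2) * √(1 - ‖Y‖ ^ 2) + inner ℝ X Y := by
  unfold P
  rw [WithLp.prod_inner_apply]
  simp only
  rw [show inner ℝ (√(1 - ‖X‖ ^ 2)) (√(1 - ‖Y‖ ^ 2)) = √(1 - ‖Y‖ ^ 2) * √(1 - ‖X‖ ^ 2) from rfl]
  ring

theorem hP {X : E n} (hX : ‖X‖ ≤ 1) : ‖P X‖ = 1 := by
  have h0 : 0 ≤ 1 - ‖X‖ ^ 2 := by nlinarith [norm_nonneg X]
  have h1 : ‖P X‖ ^ 2 = 1 := by
    rw [← real_inner_self_eq_norm_sq, hin, Real.mul_self_sqrt h0, real_inner_self_eq_norm_sq]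
    ring
  have h2 := norm_nonneg (P X)
  nlinarith

theorem hdist_eq {X Y : E n} (hX : ‖X‖ ≤ 1) (hY : ‖Y‖ ≤ 1) : angle (P X) (P Y) = hdist X Y := by
  unfold angle hdist
  rw [hP hX, hP hY, hin]
  norm_num

/-- the argument of the arccosine lies in `[-1, 1]` -/
theorem arg_mem {X Y : E n} (hX : ‖X‖ ≤ 1) (hY : ‖Y‖ ≤ 1) :
    √(1 - ‖X‖ ^ 2) * √(1 - ‖Y‖ ^ 2) + inner ℝ X Y ∈ Icc (-1 : ℝ) 1 := by
  have h1 := abs_real_inner_le_norm (P X) (P Y)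
  rw [hP hX, hP hY, hin, mul_one, abs_le] at h1
  exact ⟨h1.1, h1.2⟩

/-- a ray starting in the ball meets the sphere -/
theorem ray {c : ℝ} (hc : 0 ≤ c) (x u : E n) (hx : ‖x‖ ≤ c) (hu : ‖u‖ = 1) :
    ∃ t : ℝ, 0 ≤ t ∧ ‖x + t • u‖ = c := by
  set s : ℝ := inner ℝ x u with hs
  have hD : s ^ 2 ≤ s ^ 2 + c ^ 2 - ‖x‖ ^ 2 := by nlinarith [norm_nonneg x]
  have hD0 : 0 ≤ s ^ 2 + c ^ 2 - ‖x‖ ^ 2 := le_trans (sq_nonneg s) hD
  refine ⟨-s + √(s ^ 2 + c ^ 2 - ‖x‖ ^ 2), ?_, ?_⟩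
  · have h1 : |s| ≤ √(s ^ 2 + c ^ 2 - ‖x‖ ^ 2) := by
      rw [← Real.sqrt_sq_eq_abs]
      exact Real.sqrt_le_sqrt hD
    have h2 := le_abs_self s
    linarith
  · have h3 : ‖x + (-s + √(s ^ 2 + c ^ 2 - ‖x‖ ^ 2)) • u‖ ^ 2 = c ^ 2 := by
      rw [norm_add_sq_real, inner_smul_right, norm_smul, hu, mul_one, ← hs, Real.norm_eq_abs,
        sq_abs]
      have h4 := Real.sq_sqrt hD0
      nlinarith
    exact (sq_eq_sq₀ (norm_nonneg _) hc).1 h3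

theorem hc0 {ρ : ℝ} (h0 : 0 < ρ) (h1 : ρ < 1) : 0 < √(1 - ρ ^ 2) :=
  Real.sqrt_pos.2 (by nlinarith)

/-- the points of the sphere of radius `c` -/
theorem pt {ρ : ℝ} (h0 : 0 < ρ) (h1 : ρ < 1) (y : E n) (hy : ‖y‖ = (√(1 - ρ ^ 2))⁻¹ * ρ) :
    ∃ w : Sph n, gn (ρ • (w : E n)) = y ∧ ‖ρ • (w : E n)‖ < 1 := by
  have hs := hc0 h0 h1
  have hc : 0 < (√(1 - ρ ^ 2))⁻¹ * ρ := by positivity
  refine ⟨⟨((√(1 - ρ ^ 2))⁻¹ * ρ)⁻¹ • y, ?_⟩, ?_, ?_⟩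
  · rw [mem_sphere_zero_iff_norm, norm_smul, hy, norm_inv, Real.norm_of_nonneg hc.le,
      inv_mul_cancel₀ hc.ne']
  · have hn : ‖ρ • ((√(1 - ρ ^ 2))⁻¹ * ρ)⁻¹ • y‖ = ρ := by
      rw [norm_smul, norm_smul, hy, norm_inv, Real.norm_of_nonneg hc.le,
        inv_mul_cancel₀ hc.ne', mul_one, Real.norm_of_nonneg h0.le]
    unfold gn
    simp only
    rw [hn, smul_smul, smul_smul, mul_inv_cancel₀ hc.ne', one_smul]
  · simp only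
    rw [norm_smul, norm_smul, hy, norm_inv, Real.norm_of_nonneg hc.le,
        inv_mul_cancel₀ hc.ne', mul_one, Real.norm_of_nonneg h0.le]
    exact h1

theorem gn_le {ρ : ℝ} (h0 : 0 < ρ) (h1 : ρ < 1) (X : E n) (hX : ‖X‖ ≤ ρ) :
    ‖gn X‖ ≤ (√(1 - ρ ^ 2))⁻¹ * ρ := by
  have hs := hc0 h0 h1
  unfold gn
  rw [norm_smul, norm_inv, Real.norm_of_nonneg (Real.sqrt_nonneg _)]
  have h2 : √(1 - ρ ^ 2) ≤ √(1 - ‖X‖ ^ 2) := by
    apply Real.sqrt_le_sqrt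
    nlinarith [norm_nonneg X]
  have h3 : (√(1 - ‖X‖ ^ 2))⁻¹ ≤ (√(1 - ρ ^ 2))⁻¹ := inv_anti₀ hs h2
  exact mul_le_mul h3 hX (norm_nonneg _) (by positivity)

theorem part1 (hA : S_SPA) {ρ : ℝ} (h0 : 0 < ρ) (h1 : ρ < 1) (X : E n) (hX : ‖X‖ ≤ ρ)
    (θ : Sph n) : ∃ w : Sph n, Real.arcsin (inner ℝ X (θ : E n)) -
    Real.arcsin (inner ℝ (ρ • (w : E n)) (θ : E n)) = hdist X (ρ • (w : E n)) := by
  have hs := hc0 h0 h1
  have hc : 0 < (√(1 - ρ ^ 2))⁻¹ * ρ := by positivity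
  have hθ : ‖(θ : E n)‖ = 1 := by simp
  obtain ⟨t, ht, h2⟩ := ray hc.le (gn X) (-(θ : E n)) (gn_le h0 h1 X hX) (by rw [norm_neg, hθ])
  obtain ⟨w, hw, hw1⟩ := pt h0 h1 _ h2
  refine ⟨w, (hA n X (ρ • (w : E n)) θ (lt_of_le_of_lt hX h1) hw1).1 ⟨t, ht, ?_⟩⟩
  rw [hw, smul_neg]
  abel

theorem part2 (hB : S_SPB) (hC : S_SPC) (hn : 1 ≤ n) {ρ : ℝ} (h0 : 0 < ρ) (h1 : ρ < 1)
    (X Y : E n) (hX : ‖X‖ ≤ ρ) (hY : ‖Y‖ ≤ ρ) :
    ∃ w : Sph n, hdist X (ρ • (w : E n)) = hdist X Y + hdist Y (ρ • (w : E n)) := by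
  have hs := hc0 h0 h1
  have hc : 0 < (√(1 - ρ ^ 2))⁻¹ * ρ := by positivity
  have hX1 := lt_of_le_of_lt hX h1
  have hY1 := lt_of_le_of_lt hY h1
  obtain ⟨q1, q2, q3, q4, q5, q6, -⟩ := hC n
  by_cases hXY : X = Y
  · subst hXY
    have h2 : hdist X X = 0 := (q1 X X hX1 hX1).2 rfl
    refine ⟨⟨EuclideanSpace.single (⟨0, hn⟩ : Fin n) (1 : ℝ), ?_⟩, ?_⟩
    · simp
    · rw [h2, zero_add]
  · have hd : gn Y - gn X ≠ 0 := by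
      intro h
      apply hXY
      rw [← q6 X hX1, ← q6 Y hY1, sub_eq_zero.1 h]
    have hd0 : 0 < ‖gn Y - gn X‖ := norm_pos_iff.2 hd
    obtain ⟨t, ht, h2⟩ := ray hc.le (gn Y) (‖gn Y - gn X‖⁻¹ • (gn Y - gn X)) (gn_le h0 h1 Y hY)
      (by rw [norm_smul, norm_inv, norm_norm, inv_mul_cancel₀ hd0.ne'])
    obtain ⟨w, hw, hw1⟩ := pt h0 h1 _ h2
    refine ⟨w, ((hB n X (ρ • (w : E n)) Y hX1 hw1 hY1 ?_).1).symm⟩
    rw [hw]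
    set s : ℝ := t * ‖gn Y - gn X‖⁻¹ with hsd
    have hs0 : 0 ≤ s := by positivity
    have h3 : t • ‖gn Y - gn X‖⁻¹ • (gn Y - gn X) = s • (gn Y - gn X) := by
      rw [smul_smul]
    rw [h3]
    refine ⟨s / (1 + s), 1 / (1 + s), by positivity, by positivity, ?_, ?_⟩
    · field_simp
      ring
    · have h4 : gn Y + s • (gn Y - gn X) = (1 + s) • gn Y - s • gn X := by
        rw [smul_sub, add_smul, one_smul]
        abel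
      rw [h4, smul_sub, smul_smul, smul_smul, show 1 / (1 + s) * (1 + s) = 1 by field_simp,
        show 1 / (1 + s) * s = s / (1 + s) by ring, one_smul]
      abel

theorem part3 {ρ : ℝ} (h0 : 0 < ρ) (h1 : ρ < 1)
    (X Y : E n) (hX : ‖X‖ ≤ ρ) (hY : ‖Y‖ ≤ ρ)
    (h : ∀ w : Sph n, hdist X (ρ • (w : E n)) = hdist Y (ρ • (w : E n))) : X = Y := by
  have hkey : ∀ w : Sph n, √(1 - ‖X‖ ^ 2) * √(1 - ρ ^ 2) + ρ * inner ℝ X (w : E n) =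
      √(1 - ‖Y‖ ^ 2) * √(1 - ρ ^ 2) + ρ * inner ℝ Y (w : E n) := by
    intro w
    have hw : ‖(w : E n)‖ = 1 := by simp
    have hwn : ‖ρ • (w : E n)‖ = ρ := by
      rw [norm_smul, hw, mul_one, Real.norm_of_nonneg h0.le]
    have hw1 : ‖ρ • (w : E n)‖ ≤ 1 := by rw [hwn]; exact h1.le
    have h2 := h w
    unfold hdist at h2
    have h3 := Real.arccos_injOn (arg_mem (hX.trans h1.le) hw1) (arg_mem (hY.trans h1.le) hw1) h2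
    rw [hwn, inner_smul_right, inner_smul_right] at h3
    exact h3
  by_contra hne
  have hd0 : 0 < ‖X - Y‖ := norm_pos_iff.2 (sub_ne_zero.2 hne)
  have hw : ‖X - Y‖⁻¹ • (X - Y) ∈ sphere (0 : E n) 1 := by
    rw [mem_sphere_zero_iff_norm, norm_smul, norm_inv, norm_norm, inv_mul_cancel₀ hd0.ne']
  have hw' : -(‖X - Y‖⁻¹ • (X - Y)) ∈ sphere (0 : E n) 1 := by
    rw [mem_sphere_zero_iff_norm, norm_neg, norm_smul, norm_inv, norm_norm,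
      inv_mul_cancel₀ hd0.ne']
  have h4 := hkey ⟨_, hw⟩
  have h5 := hkey ⟨_, hw'⟩
  simp only [inner_neg_right] at h4 h5
  have h6 : inner ℝ X (‖X - Y‖⁻¹ • (X - Y)) - inner ℝ Y (‖X - Y‖⁻¹ • (X - Y)) = 0 := by
    have h7 : ρ * (inner ℝ X (‖X - Y‖⁻¹ • (X - Y)) - inner ℝ Y (‖X - Y‖⁻¹ • (X - Y))) = 0 := by
      linarith
    exact (mul_eq_zero.1 h7).resolve_left h0.ne'
  rw [← inner_sub_left, inner_smul_right, real_inner_self_eq_norm_sq] at h6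
  have h8 : ‖X - Y‖⁻¹ * ‖X - Y‖ ^ 2 = ‖X - Y‖ := by
    field_simp
  rw [h8] at h6
  exact hd0.ne' h6

theorem part4 (X Y : E n) (θ : Sph n) (hX : ‖X‖ < 1) (hY : ‖Y‖ < 1) :
    Real.arcsin (inner ℝ X (θ : E n)) - Real.arcsin (inner ℝ Y (θ : E n)) ≤ hdist X Y := by
  have hθ : ‖(θ : E n)‖ = 1 := by simp
  have h1 : ∀ Z : E n, ‖Z‖ ≤ 1 →
      angle (P Z) (P (θ : E n)) = Real.arccos (inner ℝ Z (θ : E n)) := by
    intro Z hZ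
    rw [hdist_eq hZ hθ.le]
    unfold hdist
    rw [hθ]
    norm_num
  have h2 := angle_le_angle_add_angle (P Y) (P X) (P (θ : E n))
  rw [h1 Y hY.le, h1 X hX.le, angle_comm, hdist_eq hX.le hY.le] at h2
  unfold Real.arccos at h2
  linarith

theorem main (hA : S_SPA) (hB : S_SPB) (hC : S_SPC) : S_GEO := by
  intro n ρ h0 h1
  exact ⟨fun X hX θ => part1 hA h0 h1 X hX θ, fun hn X Y hX hY => part2 hB hC hn h0 h1 X Y hX hY,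
    fun _ X Y hX hY h => part3 h0 h1 X Y hX hY h, fun X Y θ hX hY => part4 X Y θ hX hY⟩

end Pool.Agent.H780.HG.GEO
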