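import Pool.Agent.H780.HG.Stm
import Pool.Agent.H780.RG.SPC

/-!
# The glued metric space
-/

set_option autoImplicit false

open MeasureTheory Metric Set Filter Topology InnerProductGeometry

namespace Pool.Agent.H780.HG.GLU

open Pool.Agent.H241R3.FV Pool.Agent.N526.CP Pool.Agent.H780.RG

section abs

variable {M B S Z : Type} [MetricSpace M] [MetricSpace B]

/-- the distance from a point of `M` to a point of `B` through the glued set -/
noncomputable def phi (b : S → M) (f : S → B) (q : M) (X : B) : ℝ :=
  ⨅ x : S, (dist q (b x) + dist (f x) X)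

/-- the distance of two points of `M` through `B` -/
noncomputable def psi (b : S → M) (f : S → B) (q q' : M) : ℝ :=
  ⨅ x : S, (phi b f q (f x) + dist (b x) q')

variable {b : S → M} {f : S → B}

theorem phi_nonneg (q : M) (X : B) : 0 ≤ phi b f q X :=
  Real.iInf_nonneg fun x => by positivity

theorem phi_le (q : M) (X : B) (x : S) : phi b f q X ≤ dist q (b x) + dist (f x) X :=
  ciInf_le ⟨0, by rintro _ ⟨x, rfl⟩; positivity⟩ x

theorem le_phi [Nonempty S] {q : M} {X : B} {c : ℝ} (h : ∀ x, c ≤ dist q (b x) + dist (f x) X) :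
    c ≤ phi b f q X := le_ciInf h

theorem psi_nonneg (q q' : M) : 0 ≤ psi b f q q' :=
  Real.iInf_nonneg fun _ => add_nonneg (phi_nonneg _ _) dist_nonneg

theorem psi_le (q q' : M) (x : S) : psi b f q q' ≤ phi b f q (f x) + dist (b x) q' :=
  ciInf_le ⟨0, by rintro _ ⟨x, rfl⟩; exact add_nonneg (phi_nonneg _ _) dist_nonneg⟩ x

theorem le_psi [Nonempty S] {q q' : M} {c : ℝ} (h : ∀ x, c ≤ phi b f q (f x) + dist (b x) q') :
    c ≤ psi b f q q' := le_ciInf h

variable [Nonempty S]

theorem phi_lip (q : M) (X Y : B) : phi b f q X ≤ phi b f q Y + dist Y X := by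
  have h : phi b f q X - dist Y X ≤ phi b f q Y := le_phi fun x => by
    have h1 := phi_le (b := b) (f := f) q X x
    have h2 := dist_triangle (f x) Y X
    linarith
  linarith

theorem phi_tri (q q' : M) (X : B) : phi b f q X ≤ dist q q' + phi b f q' X := by
  have h : phi b f q X - dist q q' ≤ phi b f q' X := le_phi fun x => by
    have h1 := phi_le (b := b) (f := f) q X x
    have h2 := dist_triangle q q' (b x)
    linarith
  linarith

theorem f_le (hle : ∀ x y, dist (f x) (f y) ≤ dist (b x) (b y)) (x : S) (q : M) (X : B) :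
    dist (f x) X ≤ dist (b x) q + phi b f q X := by
  have h : dist (f x) X - dist (b x) q ≤ phi b f q X := le_phi fun y => by
    have h1 := dist_triangle (f x) (f y) X
    have h2 := dist_triangle (b x) q (b y)
    have h3 := hle x y
    linarith
  linarith

theorem BB (hle : ∀ x y, dist (f x) (f y) ≤ dist (b x) (b y)) (q : M) (X Y : B) :
    dist X Y ≤ phi b f q X + phi b f q Y := by
  have h : dist X Y - phi b f q Y ≤ phi b f q X := le_phi fun x => by
    have h1 := dist_triangle X (f x) Y
    have h2 := f_le hle x q Y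
    rw [dist_comm X (f x)] at h1
    rw [dist_comm (b x) q] at h2
    linarith
  linarith

theorem psi_phi (q q' : M) (X : B) : psi b f q q' ≤ phi b f q X + phi b f q' X := by
  have h : psi b f q q' - phi b f q X ≤ phi b f q' X := le_phi fun y => by
    have h1 := psi_le (b := b) (f := f) q q' y
    have h2 := phi_lip (b := b) (f := f) q (f y) X
    rw [dist_comm X (f y)] at h2
    rw [dist_comm (b y) q'] at h1
    linarith
  linarith

theorem phi_psi (hle : ∀ x y, dist (f x) (f y) ≤ dist (b x) (b y)) (q q' : M) (X : B) :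
    phi b f q X ≤ psi b f q q' + phi b f q' X := by
  have h : phi b f q X - phi b f q' X ≤ psi b f q q' := le_psi fun x => by
    have h1 := phi_lip (b := b) (f := f) q X (f x)
    have h2 := f_le hle x q' X
    linarith
  linarith

theorem psi_r (q q' q'' : M) : psi b f q q'' ≤ psi b f q q' + dist q' q'' := by
  have h : psi b f q q'' - dist q' q'' ≤ psi b f q q' := le_psi fun x => by
    have h1 := psi_le (b := b) (f := f) q q'' x
    have h2 := dist_triangle (b x) q' q''
    linarith
  linarith

theorem psi_l (q q' q'' : M) : psi b f q q'' ≤ dist q q' + psi b f q' q'' := by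
  have h : psi b f q q'' - dist q q' ≤ psi b f q' q'' := le_psi fun x => by
    have h1 := psi_le (b := b) (f := f) q q'' x
    have h2 := phi_tri (b := b) (f := f) q q' (f x)
    linarith
  linarith

theorem psi_tri (hle : ∀ x y, dist (f x) (f y) ≤ dist (b x) (b y)) (q q' q'' : M) :
    psi b f q q'' ≤ psi b f q q' + psi b f q' q'' := by
  have h : psi b f q q'' - psi b f q q' ≤ psi b f q' q'' := le_psi fun x => by
    have h1 := psi_le (b := b) (f := f) q q'' x
    have h2 := phi_psi hle q q' (f x)
    linarith
  linarith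

theorem psi_symm_le (q q' : M) : psi b f q q' ≤ psi b f q' q := by
  refine le_psi fun x => ?_
  have h : psi b f q q' - dist (b x) q ≤ phi b f q' (f x) := le_phi fun y => by
    have h1 := psi_le (b := b) (f := f) q q' y
    have h2 := phi_le (b := b) (f := f) q (f y) x
    rw [dist_comm q (b x), dist_comm (f x) (f y)] at h2
    rw [dist_comm (b y) q'] at h1
    linarith
  linarith

theorem psi_symm (q q' : M) : psi b f q q' = psi b f q' q :=
  le_antisymm (psi_symm_le q q') (psi_symm_le q' q)

theorem att [TopologicalSpace S] [CompactSpace S] (u : S → ℝ) (hu : Continuous u) (h0 : ⨅ x, u x = 0) :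
    ∃ x, u x ≤ 0 := by
  obtain ⟨x, -, hx⟩ := isCompact_univ.exists_isMinOn univ_nonempty hu.continuousOn
  refine ⟨x, ?_⟩
  rw [← h0]
  exact le_ciInf fun y => hx (mem_univ y)

theorem f_cont [TopologicalSpace S] (hb : Continuous b)
    (hle : ∀ x y, dist (f x) (f y) ≤ dist (b x) (b y)) : Continuous f := by
  rw [continuous_iff_continuousAt]
  intro x
  unfold ContinuousAt
  rw [tendsto_iff_dist_tendsto_zero]
  have h : Tendsto (fun y => dist (b y) (b x)) (𝓝 x) (𝓝 0) :=
    tendsto_iff_dist_tendsto_zero.1 (hb.continuousAt (x := x))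
  exact squeeze_zero (fun _ => dist_nonneg) (fun y => hle y x) h

theorem phi_zero [TopologicalSpace S] [CompactSpace S] (hb : Continuous b)
    (hle : ∀ x y, dist (f x) (f y) ≤ dist (b x) (b y)) (q : M) (X : B) (h : phi b f q X = 0) :
    ∃ x, q = b x ∧ f x = X := by
  obtain ⟨x, hx⟩ := att (fun x => dist q (b x) + dist (f x) X)
    ((continuous_const.dist hb).add ((f_cont hb hle).dist continuous_const)) h
  have h1 : (0 : ℝ) ≤ dist q (b x) := dist_nonneg
  have h2 : (0 : ℝ) ≤ dist (f x) X := dist_nonneg
  exact ⟨x, dist_le_zero.1 (by linarith), dist_le_zero.1 (by linarith)⟩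

theorem psi_zero [TopologicalSpace S] [CompactSpace S] (hb : Continuous b)
    (hfi : Function.Injective f)
    (hle : ∀ x y, dist (f x) (f y) ≤ dist (b x) (b y)) (q q' : M) (h : psi b f q q' = 0) :
    q = q' := by
  have hphi : Continuous (phi b f q) := by
    refine (LipschitzWith.of_le_add_mul 1 fun X Y => ?_).continuous
    have := phi_lip (b := b) (f := f) q X Y
    rw [dist_comm Y X] at this
    simpa using this
  obtain ⟨x, hx⟩ := att (fun x => phi b f q (f x) + dist (b x) q')
    ((hphi.comp (f_cont hb hle)).add (hb.dist continuous_const)) h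
  have h1 : (0 : ℝ) ≤ phi b f q (f x) := phi_nonneg _ _
  have h2 : (0 : ℝ) ≤ dist (b x) q' := dist_nonneg
  obtain ⟨y, hy1, hy2⟩ := phi_zero hb hle q (f x) (by linarith)
  have h3 : b x = q' := dist_le_zero.1 (by linarith)
  rw [hy1, hfi hy2, h3]

/-- the glued space -/
def GK (M Z : Type) : Type := M ⊕ Z

/-- the distance of the glued space -/
noncomputable def gd (b : S → M) (f : S → B) (g : Z → B) : GK M Z → GK M Z → ℝ
  | Sum.inl q, Sum.inl q' => min (dist q q') (psi b f q q')
  | Sum.inl q, Sum.inr z => phi b f q (g z)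
  | Sum.inr z, Sum.inl q => phi b f q (g z)
  | Sum.inr z, Sum.inr z' => dist (g z) (g z')

/-- the metric of the glued space -/
@[reducible] noncomputable def gm [TopologicalSpace S] [CompactSpace S] (b : S → M) (f : S → B) (g : Z → B)
    (hb : Continuous b) (hfi : Function.Injective f)
    (hle : ∀ x y, dist (f x) (f y) ≤ dist (b x) (b y)) (hg : Function.Injective g)
    (hgf : ∀ z x, f x ≠ g z) : MetricSpace (GK M Z) where
  dist := gd b f g
  dist_self a := by
    rcases a with q | z
    · show min (dist q q) (psi b f q q) = 0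
      rw [dist_self]
      exact min_eq_left (psi_nonneg q q)
    · show dist (g z) (g z) = 0
      exact dist_self _
  dist_comm a c := by
    rcases a with q | z <;> rcases c with q' | z'
    · show min (dist q q') (psi b f q q') = min (dist q' q) (psi b f q' q)
      rw [dist_comm, psi_symm]
    · rfl
    · rfl
    · show dist (g z) (g z') = dist (g z') (g z)
      exact dist_comm _ _
  dist_triangle a c e := by
    rcases a with q | z <;> rcases c with q' | z' <;> rcases e with q'' | z''
    · show min (dist q q'') (psi b f q q'') ≤ min (dist q q') (psi b f q q') +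
        min (dist q' q'') (psi b f q' q'')
      rcases min_choice (dist q q') (psi b f q q') with h | h <;>
        rcases min_choice (dist q' q'') (psi b f q' q'') with h' | h' <;> rw [h, h']
      · exact (min_le_left _ _).trans (dist_triangle _ _ _)
      · exact (min_le_right _ _).trans (psi_l _ _ _)
      · exact (min_le_right _ _).trans (psi_r _ _ _)
      · exact (min_le_right _ _).trans (psi_tri hle _ _ _)
    · show phi b f q (g z'') ≤ min (dist q q') (psi b f q q') + phi b f q' (g z'')
      rcases min_choice (dist q q') (psi b f q q') with h | h <;> rw [h]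
      · exact phi_tri _ _ _
      · exact phi_psi hle _ _ _
    · show min (dist q q'') (psi b f q q'') ≤ phi b f q (g z') + phi b f q'' (g z')
      exact (min_le_right _ _).trans (psi_phi _ _ _)
    · show phi b f q (g z'') ≤ phi b f q (g z') + dist (g z') (g z'')
      exact phi_lip _ _ _
    · show phi b f q'' (g z) ≤ phi b f q' (g z) + min (dist q' q'') (psi b f q' q'')
      rcases min_choice (dist q' q'') (psi b f q' q'') with h | h <;> rw [h]
      · have := phi_tri (b := b) (f := f) q'' q' (g z)
        rw [dist_comm] at this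
        linarith
      · have := phi_psi (b := b) (f := f) hle q'' q' (g z)
        rw [psi_symm] at this
        linarith
    · show dist (g z) (g z'') ≤ phi b f q' (g z) + phi b f q' (g z'')
      exact BB hle _ _ _
    · show phi b f q'' (g z) ≤ dist (g z) (g z') + phi b f q'' (g z')
      have := phi_lip (b := b) (f := f) q'' (g z) (g z')
      rw [dist_comm] at this
      linarith
    · show dist (g z) (g z'') ≤ dist (g z) (g z') + dist (g z') (g z'')
      exact dist_triangle _ _ _
  eq_of_dist_eq_zero {a c} h := by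
    rcases a with q | z <;> rcases c with q' | z'
    · have h' : min (dist q q') (psi b f q q') = 0 := h
      have : q = q' := by
        rcases min_choice (dist q q') (psi b f q q') with h1 | h1 <;> rw [h1] at h'
        · exact dist_eq_zero.1 h'
        · exact psi_zero hb hfi hle q q' h'
      rw [this]
    · obtain ⟨x, -, hx⟩ := phi_zero hb hle q (g z') h
      exact absurd hx (hgf z' x)
    · obtain ⟨x, -, hx⟩ := phi_zero hb hle q' (g z) h
      exact absurd hx (hgf z x)
    · have h' : dist (g z) (g z') = 0 := h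
      have : z = z' := hg (dist_eq_zero.1 h')
      rw [this]

end abs

/-- the open hemisphere -/
def HB (n : ℕ) : Type := {X : E n // ‖X‖ < 1}

noncomputable instance (n : ℕ) : MetricSpace (HB n) where
  dist X Y := hdist X.1 Y.1
  dist_self X := ((SPC.main n).1 X.1 X.1 X.2 X.2).2 rfl
  dist_comm X Y := (SPC.main n).2.1 X.1 Y.1
  dist_triangle X Y Z := (SPC.main n).2.2.1 X.1 Z.1 Y.1 X.2 Z.2 Y.2
  eq_of_dist_eq_zero {X Y} h := Subtype.ext (((SPC.main n).1 X.1 Y.1 X.2 Y.2).1 h)

theorem HB_dist {n : ℕ} (X Y : HB n) : dist X Y = hdist X.1 Y.1 := rfl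

open Classical in
theorem main : S_GLU := by
  intro n hn M _ bd F ρ hρ hbd hF hFρ hle
  have : Nonempty (Sph n) := by
    obtain ⟨m, rfl⟩ : ∃ m, n = m + 1 := ⟨n - 1, by omega⟩
    exact ⟨⟨EuclideanSpace.single 0 1, by simp⟩⟩
  have hmem : ∀ x : Sph n, (x : E n) ∈ closedBall (0 : E n) 1 := fun x => sphere_subset_closedBall x.2
  let x0 : Sph n := Classical.choice this
  let f : Sph n → HB n := fun x => ⟨F x, hF.lt x (hmem x)⟩
  let Z : Type := {X : E n // ‖X‖ ≤ ρ ∧ X ∉ F '' closedBall 0 1}
  let g : Z → HB n := fun z => ⟨z.1, lt_of_le_of_lt z.2.1 hρ⟩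
  have hfi : Function.Injective f := by
    intro x y h
    exact Subtype.ext (hF.inj (hmem x) (hmem y) (congrArg Subtype.val h))
  have hg : Function.Injective g := by
    intro z z' h
    have h1 : z.1 = z'.1 := congrArg (fun w : HB n => w.1) h
    exact Subtype.ext h1
  have hgf : ∀ z x, f x ≠ g z := by
    intro z x h
    have h1 : F x = z.1 := congrArg Subtype.val h
    exact z.2.2 ⟨x, hmem x, h1⟩
  let m := gm bd f g hbd hfi hle hg hgf
  let j : E n → GK M Z := fun X => if h : ‖X‖ ≤ ρ ∧ X ∉ F '' closedBall 0 1 then Sum.inr ⟨X, h⟩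
    else Sum.inl (bd x0)
  have hj : ∀ (X : E n) (h : ‖X‖ ≤ ρ ∧ X ∉ F '' closedBall 0 1), j X = Sum.inr ⟨X, h⟩ :=
    fun X h => dif_pos h
  refine ⟨GK M Z, m, fun q => Sum.inl q, j, ?_, ?_, ?_, ?_, ?_⟩
  · rintro (q | z)
    · exact Or.inl ⟨q, rfl⟩
    · exact Or.inr ⟨z.1, z.2.1, z.2.2, hj z.1 z.2⟩
  · intro q q' h
    exact Sum.inl_injective h
  · intro q q'
    exact min_le_left _ _
  · intro q X h1 h2
    rw [hj X ⟨h1, h2⟩]
    rfl
  · intro X Y h1 h2 h3 h4
    rw [hj X ⟨h1, h2⟩, hj Y ⟨h3, h4⟩]
    rfl

end Pool.Agent.H780.HG.GLU
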