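import Pool.Agent.H780.HG.Stm
import Pool.Agent.H780.RG.SPC
import Pool.Agent.H780.RG.CVX

/-!
# GRET: the homotopy along the rays from a point of the region
-/

set_option autoImplicit false

open MeasureTheory Metric Set Filter Topology InnerProductGeometry

namespace Pool.Agent.H780.HG.GRET

open Pool.Agent.H241R3.FV Pool.Agent.N526.CP Pool.Agent.H780.RG

lemma hdist_nonneg {n : ℕ} (X Y : E n) : 0 ≤ hdist X Y := Real.arccos_nonneg _

lemma cont_hd {n : ℕ} {Z : Type} [TopologicalSpace Z] {f g : Z → E n} (hf : Continuous f)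
    (hg : Continuous g) : Continuous fun z => hdist (f z) (g z) := by
  unfold hdist
  have h1 : Continuous fun z => ‖f z‖ := hf.norm
  have h2 : Continuous fun z => ‖g z‖ := hg.norm
  have h3 : Continuous fun z => inner ℝ (f z) (g z) := hf.inner hg
  exact Real.continuous_arccos.comp ((((continuous_const.sub (h1.pow 2)).sqrt).mul
    ((continuous_const.sub (h2.pow 2)).sqrt)).add h3)

/-- the path in `K` is continuous -/
lemma k_cont {n : ℕ} {M : Type} [MetricSpace M] {bd : Sph n → M} {F : E n → E n} {ρ : ℝ}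
    {K : Type} [MetricSpace K] {i : M → K} {j : E n → K} (hbd : Continuous bd)
    (hG : IsGlu bd F ρ i j) (hFc : Continuous fun x : Sph n => F x)
    (hF1 : ∀ x : Sph n, ‖F x‖ < 1) (X : Sph n × unitInterval → E n) (hXc : Continuous X)
    (hXn : ∀ z, ‖X z‖ ≤ ρ) (hX1 : ∀ z, ‖X z‖ < 1)
    (hXA : ∀ z, z.2 ≠ 0 → X z ∉ F '' closedBall 0 1) (hX0 : ∀ z, z.2 = 0 → X z = F z.1)
    (k : Sph n × unitInterval → K) (hk0 : ∀ z, z.2 = 0 → k z = i (bd z.1))
    (hk1 : ∀ z, z.2 ≠ 0 → k z = j (X z)) : Continuous k := by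
  have sp1 := (SPC.main n).1
  rw [continuous_iff_continuousAt]
  intro z₀
  by_cases hz₀ : z₀.2 = 0
  · change Tendsto k (𝓝 z₀) (𝓝 (k z₀))
    rw [tendsto_iff_dist_tendsto_zero]
    have g1 : Continuous fun z : Sph n × unitInterval => bd z.1 := hbd.comp continuous_fst
    have g2 : Continuous fun z : Sph n × unitInterval => F z.1 := hFc.comp continuous_fst
    have g4 : Continuous fun z : Sph n × unitInterval => hdist (F z.1) (X z) := cont_hd g2 hXc
    have hφ : Continuous fun z : Sph n × unitInterval =>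
        dist (bd z.1) (bd z₀.1) + hdist (F z.1) (X z) := (g1.dist continuous_const).add g4
    have h1 := hφ.tendsto z₀
    rw [dist_self, hX0 z₀ hz₀, (sp1 _ _ (hF1 _) (hF1 _)).2 rfl, add_zero] at h1
    refine squeeze_zero (fun z => dist_nonneg) (fun z => ?_) h1
    rw [hk0 z₀ hz₀]
    by_cases hz : z.2 = 0
    · rw [hk0 z hz]
      have h2 := hG.le (bd z.1) (bd z₀.1)
      have h3 : 0 ≤ hdist (F z.1) (X z) := Real.arccos_nonneg _
      linarith
    · rw [hk1 z hz, dist_comm, hG.ij _ _ (hXn z) (hXA z hz)]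
      refine (ciInf_le ⟨0, ?_⟩ z.1).trans ?_
      · rintro _ ⟨y, rfl⟩
        exact add_nonneg dist_nonneg (Real.arccos_nonneg _)
      · rw [dist_comm]
  · change Tendsto k (𝓝 z₀) (𝓝 (k z₀))
    rw [tendsto_iff_dist_tendsto_zero]
    have h1 : Tendsto (fun z => hdist (X z) (X z₀)) (𝓝 z₀) (𝓝 0) := by
      have h2 : Continuous fun z => hdist (X z) (X z₀) := cont_hd hXc continuous_const
      have h3 := h2.tendsto z₀
      rwa [(sp1 _ _ (hX1 z₀) (hX1 z₀)).2 rfl] at h3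
    refine h1.congr' ?_
    have h4 : ∀ᶠ z : Sph n × unitInterval in 𝓝 z₀, z.2 ≠ 0 :=
      continuous_snd.continuousAt.eventually_ne hz₀
    filter_upwards [h4] with z hz
    rw [hk1 z hz, hk1 z₀ hz₀, hG.jj _ _ (hXn z) (hXA z hz) (hXn z₀) (hXA z₀ hz₀)]

/-- the parameter at which the ray leaves the ball -/
noncomputable def sol {n : ℕ} (c : ℝ) (p d : E n) : ℝ :=
  (-(inner ℝ p d) + √((inner ℝ p d) ^ 2 + ‖d‖ ^ 2 * (c ^ 2 - ‖p‖ ^ 2))) / ‖d‖ ^ 2

lemma norm_ray {n : ℕ} (p d : E n) (s : ℝ) :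
    ‖p + s • d‖ ^ 2 = ‖p‖ ^ 2 + 2 * s * inner ℝ p d + s ^ 2 * ‖d‖ ^ 2 := by
  rw [norm_add_sq_real, inner_smul_right, norm_smul, mul_pow, Real.norm_eq_abs, sq_abs]
  ring

lemma sol_spec {n : ℕ} {c : ℝ} (hc : 0 < c) {p d : E n} (hp : ‖p‖ < c) (hd : d ≠ 0) :
    0 < sol c p d ∧ ‖p + sol c p d • d‖ = c := by
  have hN : 0 < ‖d‖ ^ 2 := pow_pos (norm_pos_iff.2 hd) 2
  have hcp : 0 < c ^ 2 - ‖p‖ ^ 2 := by
    have := pow_lt_pow_left₀ hp (norm_nonneg p) two_ne_zero
    linarith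
  have hD : (inner ℝ p d) ^ 2 < (inner ℝ p d) ^ 2 + ‖d‖ ^ 2 * (c ^ 2 - ‖p‖ ^ 2) := by
    have := mul_pos hN hcp
    linarith
  have hI : |(inner ℝ p d : ℝ)| < √((inner ℝ p d) ^ 2 + ‖d‖ ^ 2 * (c ^ 2 - ‖p‖ ^ 2)) := by
    rw [Real.lt_sqrt (abs_nonneg _), sq_abs]
    exact hD
  have hsq := Real.sq_sqrt (le_trans (sq_nonneg _) hD.le)
  have hmul : sol c p d * ‖d‖ ^ 2 =
      -(inner ℝ p d) + √((inner ℝ p d) ^ 2 + ‖d‖ ^ 2 * (c ^ 2 - ‖p‖ ^ 2)) := by
    unfold sol
    exact div_mul_cancel₀ _ hN.ne'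
  have hpos : 0 < sol c p d := by
    unfold sol
    refine div_pos ?_ hN
    have := le_abs_self (inner ℝ p d : ℝ)
    linarith
  refine ⟨hpos, ?_⟩
  have h1 : ‖p + sol c p d • d‖ ^ 2 = c ^ 2 := by
    rw [norm_ray]
    apply mul_left_cancel₀ hN.ne'
    set s := sol c p d with hs
    set R := √((inner ℝ p d) ^ 2 + ‖d‖ ^ 2 * (c ^ 2 - ‖p‖ ^ 2)) with hR
    have h2 : (s * ‖d‖ ^ 2) ^ 2 = (-(inner ℝ p d) + R) ^ 2 := by rw [hmul]
    linear_combination h2 + 2 * (inner ℝ p d) * hmul + hsq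
  exact (sq_eq_sq₀ (norm_nonneg _) hc.le).1 h1

lemma sol_unique {n : ℕ} {c : ℝ} {p d : E n} (hp : ‖p‖ < c) (hd : d ≠ 0) {s s' : ℝ} (hs : 0 < s)
    (hs' : 0 < s') (h : ‖p + s • d‖ = c) (h' : ‖p + s' • d‖ = c) : s = s' := by
  have hN : 0 < ‖d‖ ^ 2 := pow_pos (norm_pos_iff.2 hd) 2
  have hcp : 0 < c ^ 2 - ‖p‖ ^ 2 := by
    have := pow_lt_pow_left₀ hp (norm_nonneg p) two_ne_zero
    linarith
  have e1 := norm_ray p d s
  have e2 := norm_ray p d s'
  rw [h] at e1
  rw [h'] at e2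
  by_contra hne
  have h3 : (s - s') * (‖d‖ ^ 2 * (s + s') + 2 * inner ℝ p d) = 0 := by
    linear_combination e2 - e1
  have h4 : ‖d‖ ^ 2 * (s + s') + 2 * inner ℝ p d = 0 :=
    (mul_eq_zero.1 h3).resolve_left (sub_ne_zero.2 hne)
  have h5 : c ^ 2 - ‖p‖ ^ 2 = -(‖d‖ ^ 2 * (s * s')) := by
    linear_combination e1 + s * h4
  have h6 : 0 < ‖d‖ ^ 2 * (s * s') := by positivity
  linarith

lemma sol_gt_one {n : ℕ} {c : ℝ} (hc : 0 < c) {p d : E n} (hp : ‖p‖ < c) (hd : d ≠ 0)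
    (hpd : ‖p + d‖ < c) : 1 < sol c p d := by
  obtain ⟨h1, h2⟩ := sol_spec hc hp hd
  by_contra h3
  rw [not_lt] at h3
  set s := sol c p d with hs
  have h4 : p + s • d = (1 - s) • p + s • (p + d) := by
    rw [smul_add, sub_smul, one_smul]
    abel
  have h5 : ‖p + s • d‖ ≤ (1 - s) * ‖p‖ + s * ‖p + d‖ := by
    rw [h4]
    refine (norm_add_le _ _).trans ?_
    rw [norm_smul, norm_smul, Real.norm_eq_abs, Real.norm_eq_abs, abs_of_nonneg (by linarith),
      abs_of_pos h1]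
  rw [h2] at h5
  have h6 : (1 - s) * ‖p‖ ≤ (1 - s) * c := mul_le_mul_of_nonneg_left hp.le (by linarith)
  have h7 : s * ‖p + d‖ < s * c := mul_lt_mul_of_pos_left hpd h1
  linarith

lemma mono_aux {a b : ℝ} (ha : 0 ≤ a) (hab : a < b) (hb : b < 1) :
    a / √(1 - a ^ 2) < b / √(1 - b ^ 2) := by
  have h1 : 0 < 1 - b ^ 2 := by nlinarith
  have h2 : 1 - b ^ 2 ≤ 1 - a ^ 2 := by nlinarith
  have h3 : 0 < √(1 - b ^ 2) := Real.sqrt_pos.2 h1
  have h4 : √(1 - b ^ 2) ≤ √(1 - a ^ 2) := Real.sqrt_le_sqrt h2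
  calc a / √(1 - a ^ 2) ≤ a / √(1 - b ^ 2) := div_le_div_of_nonneg_left ha h3 h4
    _ < b / √(1 - b ^ 2) := (div_lt_div_iff_of_pos_right h3).2 hab

lemma norm_gn {n : ℕ} (X : E n) : ‖gn X‖ = ‖X‖ / √(1 - ‖X‖ ^ 2) := by
  unfold gn
  rw [norm_smul, norm_inv, Real.norm_eq_abs, abs_of_nonneg (Real.sqrt_nonneg _), div_eq_inv_mul]

theorem main : S_GRET := by
  intro n hn M _ bd F ρ K _ i j hρ0 hρ1 hbd hF hFρ hG r hr hrw
  classical
  obtain ⟨sp1, sp2, sp3, sp4, sp5, sp6, sp7, sp8⟩ := SPC.main n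
  set c : ℝ := ρ / √(1 - ρ ^ 2) with hcdef
  have hsq : 0 < √(1 - ρ ^ 2) := Real.sqrt_pos.2 (by nlinarith)
  have hc : 0 < c := div_pos hρ0 hsq
  have gn_lt : ∀ X : E n, ‖X‖ < ρ → ‖gn X‖ < c := fun X hX => by
    rw [norm_gn]
    exact mono_aux (norm_nonneg _) hX hρ1
  have ig_le : ∀ Y : E n, ‖Y‖ ≤ c → ‖ig Y‖ ≤ ρ := fun Y hY => by
    by_contra h
    rw [not_le] at h
    have h1 := mono_aux hρ0.le h (sp5 Y).1
    rw [← norm_gn, (sp5 Y).2] at h1
    linarith
  have ig_eq : ∀ Y : E n, ‖Y‖ = c → ig Y = ρ • (c⁻¹ • Y) := fun Y hY => by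
    have h1 : ‖ig Y‖ = ρ := by
      apply le_antisymm (ig_le Y hY.le)
      by_contra h
      rw [not_le] at h
      have h2 := gn_lt _ h
      rw [(sp5 Y).2] at h2
      linarith
    have h2 : gn (ig Y) = Y := (sp5 Y).2
    have h3 : gn (ig Y) = (√(1 - ρ ^ 2))⁻¹ • ig Y := by
      unfold gn
      rw [h1]
    rw [h3] at h2
    have h4 : √(1 - ρ ^ 2) • ((√(1 - ρ ^ 2))⁻¹ • ig Y) = √(1 - ρ ^ 2) • Y := by rw [h2]
    rw [smul_smul, mul_inv_cancel₀ hsq.ne', one_smul] at h4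
    rw [h4, smul_smul]
    congr 1
    rw [hcdef]
    field_simp
  have gn_inj : ∀ X Y : E n, ‖X‖ < 1 → ‖Y‖ < 1 → gn X = gn Y → X = Y := fun X Y hX hY h => by
    rw [← sp6 X hX, ← sp6 Y hY, h]
  -- the region
  set A : Set (E n) := F '' closedBall 0 1 with hA
  set C : Set (E n) := gn '' A with hCdef
  have hA1 : ∀ X ∈ A, ‖X‖ < 1 := by
    rintro X ⟨y, hy, rfl⟩
    exact hF.lt y hy
  have hAρ : ∀ X ∈ A, ‖X‖ < ρ := by
    rintro X ⟨y, hy, rfl⟩
    exact hFρ y hy
  have hAc : IsCompact A := (isCompact_closedBall 0 1).image_of_continuousOn hF.cont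
  have hCc : IsCompact C := hAc.image_of_continuousOn
    (sp7.mono fun X hX => mem_ball_zero_iff.2 (hA1 X hX))
  have hCv : Convex ℝ C := hF.convex
  have hCn : ∀ Y ∈ C, ‖Y‖ < c := by
    rintro Y ⟨X, hX, rfl⟩
    exact gn_lt X (hAρ X hX)
  have I1 : ∀ y ∈ ball (0 : E n) 1, gn (F y) ∈ interior C := by
    intro y hy
    have h1 : IsOpen (ig ⁻¹' interior A : Set (E n)) := isOpen_interior.preimage sp8
    have h2 : (ig ⁻¹' interior A : Set (E n)) ⊆ C := fun Y hY =>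
      ⟨ig Y, interior_subset hY, (sp5 Y).2⟩
    apply interior_maximal h2 h1
    have h3 : F y ∈ interior A := by
      rw [← hF.int]
      exact mem_image_of_mem F hy
    change ig (gn (F y)) ∈ interior A
    rw [sp6 _ (hF.lt y (ball_subset_closedBall hy))]
    exact h3
  have I2 : ∀ Y ∈ interior C, ∃ y ∈ ball (0 : E n) 1, gn (F y) = Y := by
    intro Y hY
    have h1 : IsOpen (ball (0 : E n) 1 ∩ gn ⁻¹' interior C) :=
      sp7.isOpen_inter_preimage isOpen_ball isOpen_interior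
    have h2 : ball (0 : E n) 1 ∩ gn ⁻¹' interior C ⊆ A := by
      rintro X ⟨hX1, hX2⟩
      obtain ⟨X', hX', he⟩ := interior_subset hX2
      have := gn_inj X' X (hA1 X' hX') (mem_ball_zero_iff.1 hX1) he
      rwa [← this]
    have h3 : ig Y ∈ interior A := by
      apply interior_maximal h2 h1
      refine ⟨mem_ball_zero_iff.2 (sp5 Y).1, ?_⟩
      change gn (ig Y) ∈ interior C
      rw [(sp5 Y).2]
      exact hY
    rw [← hF.int] at h3
    obtain ⟨y, hy, he⟩ := h3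
    exact ⟨y, hy, by rw [he, (sp5 Y).2]⟩
  have hSc : ∀ x : Sph n, (x : E n) ∈ closedBall (0 : E n) 1 := fun x => by
    rw [mem_closedBall_zero_iff, norm_eq_of_mem_sphere]
  let b : Sph n → E n := fun x => gn (F x)
  have hbC : ∀ x, b x ∈ C := fun x => ⟨F x, ⟨x, hSc x, rfl⟩, rfl⟩
  have hbI : ∀ x, b x ∉ interior C := fun x hx => by
    obtain ⟨y, hy, he⟩ := I2 _ hx
    have h1 := gn_inj _ _ (hF.lt y (ball_subset_closedBall hy)) (hF.lt x (hSc x)) he
    have h2 := hF.inj (ball_subset_closedBall hy) (hSc x) h1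
    have h3 : ‖(x : E n)‖ < 1 := by
      rw [← h2]
      exact mem_ball_zero_iff.1 hy
    rw [norm_eq_of_mem_sphere] at h3
    exact lt_irrefl _ h3
  have hbinj : ∀ x x' : Sph n, b x = b x' → x = x' := fun x x' h => by
    have h1 := gn_inj _ _ (hF.lt x (hSc x)) (hF.lt x' (hSc x')) h
    exact Subtype.ext (hF.inj (hSc x) (hSc x') h1)
  have hFc : Continuous fun x : Sph n => F x :=
    hF.cont.comp_continuous continuous_subtype_val hSc
  have hbc : Continuous b := sp7.comp_continuous hFc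
    fun x => mem_ball_zero_iff.2 (hF.lt x (hSc x))
  set p0 : E n := gn (F 0) with hp0
  have hp0I : p0 ∈ interior C := I1 0 (mem_ball_self one_pos)
  have hp0c : ‖p0‖ < c := hCn p0 (interior_subset hp0I)
  have hd : ∀ x, b x - p0 ≠ 0 := fun x h => by
    rw [sub_eq_zero] at h
    exact hbI x (h ▸ hp0I)
  let s : Sph n → ℝ := fun x => sol c p0 (b x - p0)
  have hs1 : ∀ x, 1 < s x := fun x => by
    apply sol_gt_one hc hp0c (hd x)
    rw [add_sub_cancel]
    exact hCn _ (hbC x)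
  have hsn : ∀ x, ‖p0 + s x • (b x - p0)‖ = c := fun x => (sol_spec hc hp0c (hd x)).2
  have hscont : Continuous s := by
    have h1 : Continuous fun x => b x - p0 := hbc.sub continuous_const
    refine Continuous.div ?_ ?_ fun x => pow_ne_zero 2 (norm_ne_zero_iff.2 (hd x))
    · fun_prop
    · fun_prop
  -- the points on the rays
  let P : Sph n × unitInterval → E n := fun z =>
    p0 + (1 + (z.2 : ℝ) * (s z.1 - 1)) • (b z.1 - p0)
  have hPc : Continuous P := by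
    have h1 : Continuous fun z : Sph n × unitInterval => (z.2 : ℝ) :=
      continuous_subtype_val.comp continuous_snd
    have h2 : Continuous fun z : Sph n × unitInterval => s z.1 := hscont.comp continuous_fst
    have h3 : Continuous fun z : Sph n × unitInterval => b z.1 := hbc.comp continuous_fst
    fun_prop
  have hPn : ∀ z, ‖P z‖ ≤ c := by
    intro z
    have h0 := z.2.2.1
    have h1 := z.2.2.2
    have h2 : P z = (1 - (z.2 : ℝ)) • b z.1 + (z.2 : ℝ) • (p0 + s z.1 • (b z.1 - p0)) := by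
      change p0 + (1 + (z.2 : ℝ) * (s z.1 - 1)) • (b z.1 - p0) = _
      module
    rw [h2]
    refine (norm_add_le _ _).trans ?_
    rw [norm_smul, norm_smul, Real.norm_eq_abs, Real.norm_eq_abs, abs_of_nonneg (by linarith),
      abs_of_nonneg h0, hsn]
    have h3 : (1 - (z.2 : ℝ)) * ‖b z.1‖ ≤ (1 - (z.2 : ℝ)) * c :=
      mul_le_mul_of_nonneg_left (hCn _ (hbC _)).le (by linarith)
    linarith
  have hPC : ∀ z, z.2 ≠ 0 → P z ∉ C := by
    intro z hz h
    have h0 : 0 < (z.2 : ℝ) := lt_of_le_of_ne z.2.2.1 fun h => hz (Subtype.ext h.symm)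
    set σ : ℝ := 1 + (z.2 : ℝ) * (s z.1 - 1) with hσ
    have hσ1 : 1 < σ := by
      have := mul_pos h0 (sub_pos.2 (hs1 z.1))
      linarith
    have hσ0 : 0 < σ := by linarith
    have hPz : P z = p0 + σ • (b z.1 - p0) := rfl
    have h3 : b z.1 = (1 - σ⁻¹) • p0 + σ⁻¹ • P z := by
      rw [hPz, smul_add, smul_smul, inv_mul_cancel₀ hσ0.ne']
      module
    apply hbI z.1
    rw [h3]
    exact hCv.combo_interior_self_mem_interior hp0I h (sub_pos.2 (inv_lt_one_of_one_lt₀ hσ1))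
      (inv_nonneg.2 hσ0.le) (by ring)
  let X : Sph n × unitInterval → E n := fun z => ig (P z)
  have hXc : Continuous X := sp8.comp hPc
  have hXn : ∀ z, ‖X z‖ ≤ ρ := fun z => ig_le _ (hPn z)
  have hX1 : ∀ z, ‖X z‖ < 1 := fun z => (sp5 _).1
  have hXA : ∀ z, z.2 ≠ 0 → X z ∉ A := fun z hz h => by
    apply hPC z hz
    exact ⟨X z, h, (sp5 _).2⟩
  have hX0 : ∀ z, z.2 = 0 → X z = F z.1 := fun z hz => by
    have h1 : P z = b z.1 := by
      change p0 + (1 + (z.2 : ℝ) * (s z.1 - 1)) • (b z.1 - p0) = b z.1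
      rw [hz]
      simp
    change ig (P z) = _
    rw [h1]
    exact sp6 _ (hF.lt _ (hSc _))
  have hXone : ∀ x : Sph n, X (x, 1) = ig (p0 + s x • (b x - p0)) := fun x => by
    have h2 : P (x, 1) = p0 + s x • (b x - p0) := by
      change p0 + (1 + ((1 : unitInterval) : ℝ) * (s x - 1)) • (b x - p0) = _
      rw [Set.Icc.coe_one]
      congr 2
      ring
    change ig (P (x, 1)) = _
    rw [h2]
  clear_value X
  -- the path in `K`
  let k : Sph n × unitInterval → K := fun z => if z.2 = 0 then i (bd z.1) else j (X z)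
  have hkc : Continuous k := k_cont hbd hG hFc (fun x => hF.lt x (hSc x)) X hXc hXn hX1 hXA hX0 k
    (fun z hz => if_pos hz) fun z hz => if_neg hz
  -- the homeomorphism
  let w : Sph n → Sph n := fun x => ⟨c⁻¹ • (p0 + s x • (b x - p0)), by
    rw [mem_sphere_zero_iff_norm, norm_smul, hsn, norm_inv, Real.norm_eq_abs, abs_of_pos hc,
      inv_mul_cancel₀ hc.ne']⟩
  have hwc : Continuous w := by
    refine Continuous.subtype_mk ?_ _
    fun_prop
  have hinj : Function.Injective w := by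
    intro x x' h
    apply hbinj
    have h1 : c⁻¹ • (p0 + s x • (b x - p0)) = c⁻¹ • (p0 + s x' • (b x' - p0)) :=
      congrArg Subtype.val h
    have h2 : p0 + s x • (b x - p0) = p0 + s x' • (b x' - p0) :=
      smul_right_injective (E n) (inv_ne_zero hc.ne') h1
    have h3 : s x • (b x - p0) = s x' • (b x' - p0) := add_left_cancel h2
    have hsx : 0 < s x := by linarith [hs1 x]
    have hsx' : 0 < s x' := by linarith [hs1 x']
    set v : E n := s x • (b x - p0) with hv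
    have hv0 : v ≠ 0 := smul_ne_zero hsx.ne' (hd x)
    have hvn : 0 < ‖v‖ := norm_pos_iff.2 hv0
    have e1 : b x = p0 + ((s x)⁻¹ * ‖v‖) • (‖v‖⁻¹ • v) := by
      rw [smul_smul, mul_assoc, mul_inv_cancel₀ hvn.ne', mul_one, hv, smul_smul,
        inv_mul_cancel₀ hsx.ne', one_smul]
      abel
    have e2 : b x' = p0 + ((s x')⁻¹ * ‖v‖) • (‖v‖⁻¹ • v) := by
      rw [smul_smul, mul_assoc, mul_inv_cancel₀ hvn.ne', mul_one, h3, smul_smul,
        inv_mul_cancel₀ hsx'.ne', one_smul]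
      abel
    exact (CVX.main n hn C hCc hCv).2.2.1 p0 hp0I (b x) ⟨hbC x, hbI x⟩ (b x') ⟨hbC x', hbI x'⟩
      (‖v‖⁻¹ • v) _ _ (by rw [norm_smul, norm_inv, norm_norm, inv_mul_cancel₀ hvn.ne'])
      (by positivity) (by positivity) e1 e2
  have hsurj : Function.Surjective w := by
    intro y
    have hyn : ‖(y : E n)‖ = 1 := norm_eq_of_mem_sphere y
    have hd' : c • (y : E n) - p0 ≠ 0 := by
      intro h
      rw [sub_eq_zero] at h
      have : ‖p0‖ = c := by rw [← h, norm_smul, hyn, mul_one, Real.norm_eq_abs, abs_of_pos hc]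
      linarith
    -- a small step
    have h1 : ∃ ε : ℝ, 0 < ε ∧ p0 + ε • (c • (y : E n) - p0) ∈ C := by
      have h2 : ContinuousAt (fun ε : ℝ => p0 + ε • (c • (y : E n) - p0)) 0 := by fun_prop
      have h3 : ∀ᶠ ε : ℝ in 𝓝 0, p0 + ε • (c • (y : E n) - p0) ∈ C := by
        apply h2
        have h4 : C ∈ 𝓝 p0 := mem_interior_iff_mem_nhds.1 hp0I
        simpa using h4
      rw [Metric.eventually_nhds_iff] at h3
      obtain ⟨δ, hδ, h5⟩ := h3
      refine ⟨δ / 2, by positivity, h5 ?_⟩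
      rw [Real.dist_eq, sub_zero, abs_of_pos (by positivity)]
      linarith
    obtain ⟨ε, hε, hεC⟩ := h1
    have hne : p0 ≠ p0 + ε • (c • (y : E n) - p0) := by
      intro h
      have h2 : ε • (c • (y : E n) - p0) = 0 := by
        have := h.symm
        rwa [add_eq_left] at this
      exact smul_ne_zero hε.ne' hd' h2
    obtain ⟨q, ⟨hqC, hqI⟩, hz⟩ := (CVX.main n hn C hCc hCv).2.2.2 p0 (interior_subset hp0I) _ hεC
      hne
    rw [segment_eq_image'] at hz
    obtain ⟨τ, ⟨hτ0, hτ1⟩, hτ⟩ := hz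
    simp only at hτ
    have h3 : τ • (q - p0) = ε • (c • (y : E n) - p0) := add_left_cancel hτ
    have hτpos : 0 < τ := by
      refine lt_of_le_of_ne hτ0 fun h => ?_
      rw [← h, zero_smul] at h3
      exact smul_ne_zero hε.ne' hd' h3.symm
    obtain ⟨X', ⟨y', hy', rfl⟩, hq⟩ := hqC
    have hy'1 : ‖y'‖ = 1 := by
      apply le_antisymm (mem_closedBall_zero_iff.1 hy')
      by_contra h
      rw [not_le] at h
      exact hqI (hq ▸ I1 y' (mem_ball_zero_iff.2 h))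
    refine ⟨⟨y', mem_sphere_zero_iff_norm.2 hy'1⟩, ?_⟩
    set x : Sph n := ⟨y', mem_sphere_zero_iff_norm.2 hy'1⟩ with hx
    have hbx : b x = q := hq
    have h4 : c • (y : E n) = p0 + (τ / ε) • (b x - p0) := by
      rw [hbx]
      have h5 : c • (y : E n) - p0 = (ε⁻¹ * τ) • (q - p0) := by
        rw [← smul_smul, h3, smul_smul, inv_mul_cancel₀ hε.ne', one_smul]
      rw [div_eq_inv_mul, ← h5]
      abel
    have h6 : ‖p0 + (τ / ε) • (b x - p0)‖ = c := by
      rw [← h4, norm_smul, hyn, mul_one, Real.norm_eq_abs, abs_of_pos hc]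
    have h7 : s x = τ / ε := sol_unique hp0c (hd x) (by linarith [hs1 x]) (by positivity)
      (hsn x) h6
    apply Subtype.ext
    change c⁻¹ • (p0 + s x • (b x - p0)) = y
    rw [h7, ← h4, smul_smul, inv_mul_cancel₀ hc.ne', one_smul]
  refine ⟨fun z => r (k z), Continuous.homeoOfEquivCompactToT2
    (f := Equiv.ofBijective w ⟨hinj, hsurj⟩) hwc, hr.comp hkc, fun x => ?_, fun x => ?_⟩
  · have : k (x, 0) = i (bd x) := if_pos rfl
    change r (k (x, 0)) = _
    rw [this]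
  · have h1 : k (x, 1) = j (X (x, 1)) := if_neg one_ne_zero
    change r (k (x, 1)) = w x
    rw [h1]
    have h3 : X (x, 1) = ρ • ((w x : Sph n) : E n) := by
      rw [hXone]
      exact ig_eq _ (hsn x)
    rw [h3]
    exact hrw (w x)

end Pool.Agent.H780.HG.GRET
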