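import Pool.Agent.H780.HG.Stm

set_option autoImplicit false

open MeasureTheory Metric Set Filter Topology InnerProductGeometry

namespace Pool.Agent.H780.HG.HEP

open Pool.Agent.H241R3.FV Pool.Agent.H780.HG

theorem main : S_HEP := by
  intro n M _ bd hbd hinj f hf H hH hH0
  -- closed embedding
  let e : Sph n × unitInterval → M × unitInterval := fun p => (bd p.1, p.2)
  have he : Continuous e := (hbd.comp continuous_fst).prodMk continuous_snd
  have heinj : Function.Injective e := by
    rintro ⟨x, s⟩ ⟨y, t⟩ h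
    have h1 : bd x = bd y := congrArg Prod.fst h
    have h2 : s = t := congrArg Prod.snd h
    rw [hinj h1, h2]
  have hemb : IsClosedEmbedding e := he.isClosedEmbedding heinj
  let D : C(Sph n × unitInterval, E n) :=
    ⟨fun p => (H p : E n) - (f (bd p.1) : E n), by fun_prop⟩
  obtain ⟨G0, hG0⟩ := ContinuousMap.exists_extension hemb D
  have hG0' : ∀ x t, G0 (bd x, t) = (H (x, t) : E n) - (f (bd x) : E n) := by
    intro x t
    have := congrArg (fun g : C(Sph n × unitInterval, E n) => g (x, t)) hG0
    exact this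
  let G : M × unitInterval → E n := fun p => (f p.1 : E n) + G0 p - G0 (p.1, 0)
  have hG : Continuous G := by
    have h1 : Continuous fun p : M × unitInterval => G0 (p.1, 0) :=
      G0.continuous.comp (continuous_fst.prodMk continuous_const)
    have h2 : Continuous fun p : M × unitInterval => (f p.1 : E n) :=
      continuous_subtype_val.comp (hf.comp continuous_fst)
    exact (h2.add G0.continuous).sub h1
  have hGz : ∀ q, G (q, 0) = (f q : E n) := by
    intro q
    change (f q : E n) + G0 (q, 0) - G0 (q, 0) = _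
    abel
  have hGb : ∀ x t, G (bd x, t) = (H (x, t) : E n) := by
    intro x t
    change (f (bd x) : E n) + G0 (bd x, t) - G0 (bd x, 0) = _
    rw [hG0', hG0', hH0]
    abel
  have hne : ∀ y : Sph n, (y : E n) ≠ 0 := by
    intro y h
    have h1 : ‖(y : E n)‖ = 1 := norm_eq_of_mem_sphere y
    rw [h, norm_zero] at h1
    exact zero_ne_one h1
  -- closed set of bad points
  let C : Set M := Prod.fst '' {p : M × unitInterval | G p = 0}
  have hC : IsClosed C := isClosedMap_fst_of_compactSpace _ (isClosed_eq hG continuous_const)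
  have hR : IsClosed (range bd) := (isCompact_range hbd).isClosed
  have hdis : Disjoint C (range bd) := by
    rw [Set.disjoint_left]
    rintro q ⟨⟨q', t⟩, hp, rfl⟩ ⟨x, hx⟩
    change bd x = q' at hx
    subst hx
    exact hne (H (x, t)) ((hGb x t).symm.trans hp)
  obtain ⟨u, hu0, hu1, hu01⟩ := exists_continuous_zero_one_of_isClosed hC hR hdis
  let v : M → unitInterval := fun q => ⟨u q, hu01 q⟩
  have hv : Continuous v := u.continuous.subtype_mk _
  have hgood : ∀ q, G (q, v q) ≠ 0 := by
    intro q h
    have hq : q ∈ C := ⟨(q, v q), h, rfl⟩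
    have h0 : v q = 0 := Subtype.ext (hu0 hq)
    rw [h0, hGz] at h
    exact hne (f q) h
  have hGv : Continuous fun q => G (q, v q) := hG.comp (continuous_id.prodMk hv)
  refine ⟨fun q => ⟨‖G (q, v q)‖⁻¹ • G (q, v q), ?_⟩, ?_, ?_⟩
  · rw [mem_sphere_zero_iff_norm, norm_smul, norm_inv, norm_norm]
    exact inv_mul_cancel₀ (norm_ne_zero_iff.2 (hgood q))
  · exact ((hGv.norm.inv₀ fun q => norm_ne_zero_iff.2 (hgood q)).smul hGv).subtype_mk _
  · intro x
    have h1 : v (bd x) = 1 := Subtype.ext (hu1 ⟨x, rfl⟩)
    apply Subtype.ext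
    change ‖G (bd x, v (bd x))‖⁻¹ • G (bd x, v (bd x)) = _
    rw [h1, hGb]
    have h2 : ‖(H (x, 1) : E n)‖ = 1 := norm_eq_of_mem_sphere (H (x, 1))
    rw [h2, inv_one, one_smul]


end Pool.Agent.H780.HG.HEP
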