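import Pool.Agent.H780.HG.Stm
import Pool.Agent.H780.RG.SPC

/-!
# Project HG, task HLEN: the Riemannian metric of the hemisphere (helper976)
-/

set_option autoImplicit false

open MeasureTheory Metric Set Filter Topology InnerProductGeometry

namespace Pool.Agent.H780.HG.HLEN

open Pool.Agent.H241R3.FV Pool.Agent.N526.CP Pool.Agent.H780.RG Pool.Agent.H780.HG

variable {n : ℕ}

theorem one_sub_pos {X : E n} (hX : ‖X‖ < 1) : 0 < 1 - ‖X‖ ^ 2 := by
  nlinarith [norm_nonneg X]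

theorem GH_cont : ContinuousOn (GH : E n → Matrix (Fin n) (Fin n) ℝ) (ball 0 1) := by
  refine continuousOn_pi.2 fun a => continuousOn_pi.2 fun b => ?_
  have h2 : ∀ X ∈ ball (0 : E n) 1, 1 - ‖X‖ ^ 2 ≠ 0 := by
    intro X hX
    have hX' : ‖X‖ < 1 := by simpa using hX
    exact (one_sub_pos hX').ne'
  have h3 : ContinuousOn (fun X : E n => X a * X b / (1 - ‖X‖ ^ 2)) (ball 0 1) := by
    refine ContinuousOn.div ?_ ?_ h2
    · fun_prop
    · fun_prop
  exact continuousOn_const.add h3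

theorem GH_eq (X : E n) : GH X =
    1 + (1 - ‖X‖ ^ 2)⁻¹ • Matrix.vecMulVec (fun i => X i) (fun i => X i) := by
  ext a b
  simp only [GH, Matrix.add_apply, Matrix.one_apply, Matrix.smul_apply, Matrix.vecMulVec_apply,
    smul_eq_mul]
  ring

theorem GH_pos {X : E n} (hX : ‖X‖ < 1) : (GH X).PosDef := by
  rw [GH_eq]
  have h1 := Matrix.posSemidef_vecMulVec_self_star (fun i => X i)
  have h2 : star (fun i => X i) = fun i => X i := by
    ext i
    simp
  rw [h2] at h1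
  exact Matrix.PosDef.one.add_posSemidef (h1.smul (inv_nonneg.2 (one_sub_pos hX).le))

theorem norm_sq_sum (V : E n) : ‖V‖ ^ 2 = ∑ i, V i * V i := by
  rw [EuclideanSpace.real_norm_sq_eq]
  exact Finset.sum_congr rfl fun i _ => by ring

theorem GH_det {X : E n} (hX : ‖X‖ < 1) : (GH X).det = (1 - ‖X‖ ^ 2)⁻¹ := by
  rw [GH_eq, ← Matrix.smul_vecMulVec, Matrix.vecMulVec_eq Unit,
    Matrix.det_one_add_replicateCol_mul_replicateRow]
  have h1 : (fun i => X i) ⬝ᵥ ((1 - ‖X‖ ^ 2)⁻¹ • fun i => X i) = (1 - ‖X‖ ^ 2)⁻¹ * ‖X‖ ^ 2 := by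
    rw [dotProduct_smul, norm_sq_sum]
    rfl
  rw [h1]
  have := (one_sub_pos hX).ne'
  field_simp
  ring

theorem gnorm_GH (X V : E n) :
    gnorm (GH X) V = √(‖V‖ ^ 2 + (inner ℝ X V) ^ 2 / (1 - ‖X‖ ^ 2)) := by
  unfold gnorm
  have h1 := norm_sq_sum V
  have h2 : inner ℝ X V = ∑ i, X i * V i := by
    rw [PiLp.inner_apply]
    exact Finset.sum_congr rfl fun i _ => by simp [mul_comm]
  have h3 : ∀ i, ∑ j, V i * GH X i j * V j =
      V i * V i + V i * X i * ((∑ j, X j * V j) / (1 - ‖X‖ ^ 2)) := by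
    intro i
    have h4 : ∀ j, V i * GH X i j * V j =
        (if i = j then V i * V j else 0) + V i * X i / (1 - ‖X‖ ^ 2) * (X j * V j) := by
      intro j
      simp only [GH]
      split_ifs <;> ring
    rw [Finset.sum_congr rfl fun j _ => h4 j, Finset.sum_add_distrib, ← Finset.mul_sum,
      Finset.sum_ite_eq]
    simp only [Finset.mem_univ, if_true]
    ring
  have h5 : ∑ i, V i * X i = ∑ i, X i * V i := Finset.sum_congr rfl fun i _ => by ring
  rw [Finset.sum_congr rfl fun i _ => h3 i, Finset.sum_add_distrib, ← Finset.sum_mul, h1, h2, h5]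
  congr 1
  ring

/-- the integrand -/
noncomputable def N (X V : E n) (t : ℝ) : ℝ :=
  √(‖V‖ ^ 2 + (inner ℝ (X + t • V) V) ^ 2 / (1 - ‖X + t • V‖ ^ 2))

theorem hasDerivAt_line (X V : E n) (t : ℝ) : HasDerivAt (fun t : ℝ => X + t • V) V t := by
  have h := ((hasDerivAt_id t).smul_const V).const_add X
  simpa using h

theorem key (X V : E n) (x : ℝ) (hx : ‖X + x • V‖ < 1) (r : ℝ) (hr : N X V x < r) :
    ∀ᶠ z in 𝓝[>] x, ‖X + z • V‖ < 1 ∧ hdist (X + x • V) (X + z • V) < r * (z - x) := by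
  have hq := one_sub_pos hx
  have hN0 : 0 ≤ N X V x := Real.sqrt_nonneg _
  have hr0 : 0 < r := lt_of_le_of_lt hN0 hr
  obtain ⟨s, hsdef⟩ : ∃ s : ℝ → ℝ, s = fun t => √(1 - ‖X + t • V‖ ^ 2) := ⟨_, rfl⟩
  obtain ⟨s', hs'⟩ : ∃ s' : ℝ, s' = -(2 * inner ℝ (X + x • V) V) / (2 * √(1 - ‖X + x • V‖ ^ 2)) :=
    ⟨_, rfl⟩
  have hs : HasDerivAt s s' x := by
    have h1 : HasDerivAt (fun t : ℝ => ‖X + t • V‖ ^ 2) (2 * inner ℝ (X + x • V) V) x :=
      (hasDerivAt_line X V x).norm_sq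
    have h2 := (h1.const_sub 1).sqrt hq.ne'
    rw [hsdef, hs']
    exact h2
  have hs'2 : ‖V‖ ^ 2 + s' ^ 2 = N X V x ^ 2 := by
    unfold N
    rw [Real.sq_sqrt (by positivity), hs', div_pow, mul_pow, Real.sq_sqrt hq.le]
    congr 1
    field_simp
  have hle : 𝓝[>] x ≤ 𝓝[≠] x := nhdsWithin_mono _ fun z hz => ne_of_gt hz
  have T1 : Tendsto (fun z => ‖V‖ ^ 2 + (slope s x z) ^ 2) (𝓝[>] x) (𝓝 (N X V x ^ 2)) := by
    rw [← hs'2]
    exact ((hasDerivAt_iff_tendsto_slope.1 hs).mono_left hle).pow 2 |>.const_add _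
  have T2 : Tendsto (fun z : ℝ => r ^ 2 - 5 / 48 * r ^ 4 * (z - x) ^ 2) (𝓝[>] x) (𝓝 (r ^ 2)) := by
    have h1 : Continuous (fun z : ℝ => r ^ 2 - 5 / 48 * r ^ 4 * (z - x) ^ 2) := by fun_prop
    have h2 := (h1.tendsto x).mono_left (nhdsWithin_le_nhds (s := Ioi x))
    simpa using h2
  have hlt : N X V x ^ 2 < r ^ 2 := by nlinarith
  have E1 := T1.eventually_lt T2 hlt
  have E2 : ∀ᶠ z in 𝓝[>] x, r * (z - x) < 1 := by
    have h1 : Continuous (fun z : ℝ => r * (z - x)) := by fun_prop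
    have h2 := (h1.tendsto x).mono_left (nhdsWithin_le_nhds (s := Ioi x))
    simp only [sub_self, mul_zero] at h2
    exact h2.eventually_lt_const one_pos
  have E3 : ∀ᶠ z in 𝓝[>] x, ‖X + z • V‖ < 1 := by
    have h1 : Continuous (fun z : ℝ => ‖X + z • V‖) := by fun_prop
    have h2 := (h1.tendsto x).mono_left (nhdsWithin_le_nhds (s := Ioi x))
    exact h2.eventually_lt_const hx
  have E4 : ∀ᶠ z in 𝓝[>] x, x < z := eventually_mem_nhdsWithin
  filter_upwards [E1, E2, E3, E4] with z e1 e2 e3 e4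
  refine ⟨e3, ?_⟩
  obtain ⟨h, hh⟩ : ∃ h : ℝ, h = z - x := ⟨_, rfl⟩
  have hh0 : 0 < h := by rw [hh]; linarith
  have hqz := one_sub_pos e3
  have hsl : s z - s x = slope s x z * h := by
    rw [slope_def_field, ← hh, div_mul_cancel₀ _ hh0.ne']
  have hsx2 : s x ^ 2 = 1 - ‖X + x • V‖ ^ 2 := by rw [hsdef]; exact Real.sq_sqrt hq.le
  have hsz2 : s z ^ 2 = 1 - ‖X + z • V‖ ^ 2 := by rw [hsdef]; exact Real.sq_sqrt hqz.le
  have hV : h ^ 2 * ‖V‖ ^ 2 = ‖X + z • V‖ ^ 2 - 2 * inner ℝ (X + z • V) (X + x • V) +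
      ‖X + x • V‖ ^ 2 := by
    rw [← norm_sub_sq_real]
    have h1 : X + z • V - (X + x • V) = h • V := by
      rw [hh, sub_smul]; abel
    rw [h1, norm_smul, mul_pow, Real.norm_eq_abs, sq_abs]
  have hinn : inner ℝ (X + x • V) (X + z • V) = inner ℝ (X + z • V) (X + x • V) :=
    real_inner_comm _ _
  obtain ⟨A, hA⟩ : ∃ A : ℝ, A = s x * s z + inner ℝ (X + x • V) (X + z • V) := ⟨_, rfl⟩
  obtain ⟨W, hW⟩ : ∃ W : ℝ, W = ‖V‖ ^ 2 + slope s x z ^ 2 := ⟨_, rfl⟩
  have hAeq : A = 1 - h ^ 2 / 2 * W := by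
    have h1 : (s z - s x) ^ 2 = (slope s x z) ^ 2 * h ^ 2 := by rw [hsl]; ring
    rw [hA, hW, hinn]
    nlinarith
  have hW0 : 0 ≤ W := by rw [hW]; positivity
  have e1' : W < r ^ 2 - 5 / 48 * r ^ 4 * h ^ 2 := by rw [hW, hh]; exact e1
  have hrh0 : 0 < r * h := by positivity
  have hrh1 : r * h < 1 := by rw [hh]; exact e2
  have hcos : Real.cos (r * h) ≤ 1 - (r * h) ^ 2 / 2 + (r * h) ^ 4 * (5 / 96) := by
    have h1 := Real.cos_bound (x := r * h) (by rw [abs_of_pos hrh0]; exact hrh1.le)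
    rw [abs_of_pos hrh0] at h1
    have h2 := (abs_le.1 h1).2
    linarith
  have hlt2 : Real.cos (r * h) < A := by
    have h1 : h ^ 2 / 2 * W < h ^ 2 / 2 * (r ^ 2 - 5 / 48 * r ^ 4 * h ^ 2) :=
      mul_lt_mul_of_pos_left e1' (by positivity)
    have h2 : h ^ 2 / 2 * (r ^ 2 - 5 / 48 * r ^ 4 * h ^ 2) =
        (r * h) ^ 2 / 2 - (r * h) ^ 4 * (5 / 96) := by ring
    rw [hAeq]
    linarith
  have hA1 : A ≤ 1 := by
    rw [hAeq]
    have : 0 ≤ h ^ 2 / 2 * W := by positivity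
    linarith
  have hfin : Real.arccos A < r * h := by
    have h1 := Real.arccos_lt_arccos (Real.neg_one_le_cos (r * h)) hlt2 hA1
    rwa [Real.arccos_cos hrh0.le (by linarith [Real.pi_gt_three])] at h1
  have hd : hdist (X + x • V) (X + z • V) = Real.arccos A := by
    rw [hA, hsdef]
    rfl
  rw [hd, ← hh]
  exact hfin

theorem main : S_HLEN := by
  intro n
  refine ⟨GH_cont, fun X hX => ?_, fun X hX Y hY => ?_⟩
  · have hX' : ‖X‖ < 1 := by simpa using hX
    exact ⟨GH_pos hX', by rw [GH_det hX', Real.sqrt_inv]⟩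
  · have hX' : ‖X‖ < 1 := by simpa using hX
    have hY' : ‖Y‖ < 1 := by simpa using hY
    obtain ⟨V, hV⟩ : ∃ V : E n, V = Y - X := ⟨_, rfl⟩
    obtain ⟨hz, hsym, htri, hcont, -⟩ := SPC.main n
    have hline : ∀ t ∈ Icc (0 : ℝ) 1, ‖X + t • V‖ < 1 := by
      intro t ht
      have h1 := (convex_ball (0 : E n) 1).add_smul_sub_mem hX hY ht
      rw [hV]
      simpa using h1
    obtain ⟨S, hS⟩ : ∃ S : Set ℝ, S = {t | ‖X + t • V‖ < 1} := ⟨_, rfl⟩
    have hSo : IsOpen S := by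
      rw [hS]
      exact isOpen_lt (by fun_prop) continuous_const
    have hIS : Icc (0 : ℝ) 1 ⊆ S := by
      rw [hS]
      exact hline
    have hNc : ContinuousOn (N X V) S := by
      have h2 : ∀ t ∈ S, 1 - ‖X + t • V‖ ^ 2 ≠ 0 := by
        intro t ht
        rw [hS] at ht
        exact (one_sub_pos ht).ne'
      have h3 : ContinuousOn (fun t : ℝ => (inner ℝ (X + t • V) V) ^ 2 / (1 - ‖X + t • V‖ ^ 2)) S := by
        refine ContinuousOn.div ?_ ?_ h2
        · fun_prop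
        · fun_prop
      exact (continuousOn_const.add h3).sqrt
    have hB : ∀ t ∈ Icc (0 : ℝ) 1, HasDerivAt (fun u => ∫ τ in (0 : ℝ)..u, N X V τ) (N X V t) t := by
      intro t ht
      apply intervalIntegral.integral_hasDerivAt_right
      · apply ContinuousOn.intervalIntegrable
        rw [uIcc_of_le ht.1]
        exact hNc.mono ((Icc_subset_Icc_right ht.2).trans hIS)
      · exact hNc.stronglyMeasurableAtFilter hSo t (hIS ht)
      · exact hNc.continuousAt (hSo.mem_nhds (hIS ht))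
    have hmain := image_le_of_liminf_slope_right_le_deriv_boundary
      (f := fun t : ℝ => hdist X (X + t • V)) (a := 0) (b := 1)
      (B := fun u => ∫ τ in (0 : ℝ)..u, N X V τ) (B' := N X V)
      (by
        have h1 : Continuous (fun t : ℝ => ((X, X + t • V) : E n × E n)) := by fun_prop
        exact (hcont.comp h1).continuousOn)
      (by
        have h1 : hdist X (X + (0 : ℝ) • V) = 0 := by
          rw [zero_smul, add_zero]
          exact (hz X X hX' hX').2 rfl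
        simp only [h1, intervalIntegral.integral_same]
        exact le_rfl)
      (fun t ht => (hB t ht).continuousAt.continuousWithinAt)
      (fun t ht => (hB t ⟨ht.1, ht.2.le⟩).hasDerivWithinAt)
      (by
        intro x hx r hr
        apply Eventually.frequently
        have hx' := hline x ⟨hx.1, hx.2.le⟩
        filter_upwards [key X V x hx' r hr, (eventually_mem_nhdsWithin : ∀ᶠ z in 𝓝[>] x, z ∈ Ioi x)]
          with z hz1 hz2
        have hz2' : x < z := hz2
        have h1 := htri X (X + z • V) (X + x • V) hX' hz1.1 hx'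
        rw [slope_def_field, div_lt_iff₀ (by linarith)]
        linarith [hz1.2])
    have h1 := hmain (right_mem_Icc.2 zero_le_one)
    have h2 : X + (1 : ℝ) • V = Y := by rw [hV, one_smul]; abel
    simp only [h2] at h1
    refine h1.trans (le_of_eq ?_)
    apply intervalIntegral.integral_congr
    intro t _
    show N X V t = gnorm (GH (X + t • (Y - X))) (Y - X)
    rw [gnorm_GH, ← hV]
    rfl

end Pool.Agent.H780.HG.HLEN
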