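import Pool.Agent.H780.HG.Asm
import Pool.Agent.H780.HG.CORA
import Pool.Graph.R_pool_sql_team_seeded_3997aac3.Q183.CM.L

/-!
# Project HG: the lower bound for the volume
-/

set_option autoImplicit false

open MeasureTheory Metric Set Filter Topology InnerProductGeometry

namespace Pool.Agent.H780.HG.Min

open Pool.Agent.H241R3.FV Pool.Agent.N526.CP Pool.Agent.H780.RG Pool.Agent.H780.HG
open Pool.Agent.Q183.CN (bp sph_norm ball_lf cap_sig angle_bp)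
open Pool.Agent.Q188.FC (lf)

/-- the inequality for caps (from the library) -/
theorem caps (R : ℝ) (hR0 : 0 < R) (hR1 : R < Real.pi / 2) : ∃ d₀ : ℕ,
    (Real.sin R ^ 2 ≤ 5 / 41 → d₀ = 0) ∧ ∀ d : ℕ, d₀ ≤ d → ∀ (K : Type) [MetricSpace K]
    (S : Fill d K), S.NoRetraction →
    (∀ v w : Sph (d + 1), hdist (Real.sin R • (v : E (d + 1))) (Real.sin R • (w : E (d + 1))) ≤
      dist (S.bd v) (S.bd w)) →
    ∫⁻ p in ball (0 : E (d + 1)) (Real.sin R), ENNReal.ofReal (√(1 - ‖p‖ ^ 2))⁻¹ ≤ S.vol := by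
  have h1 : 0 < Real.sin R :=
    Real.sin_pos_of_pos_of_lt_pi hR0 (by linarith [Real.pi_pos])
  have h2 : 0 < Real.cos R := Real.cos_pos_of_mem_Ioo ⟨by linarith, hR1⟩
  have h3 := Real.cos_sq_add_sin_sq R
  have key : ∀ d : ℕ, ∀ (K : Type) [MetricSpace K] (S : Fill d K) {c : E (d + 2)} (_ : ‖c‖ = 1)
      {J : E (d + 1) →ₗᵢ[ℝ] E (d + 2)} (_ : ∀ v, inner ℝ (J v) c = 0)
      (_ : ∀ v w : Sph (d + 1), hdist (Real.sin R • (v : E (d + 1)))
        (Real.sin R • (w : E (d + 1))) ≤ dist (S.bd v) (S.bd w)),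
      ∀ v w : Sph (d + 1), angle (bp R c J v) (bp R c J w) ≤ dist (S.bd v) (S.bd w) := by
    intro d K _ S c hc J hJ hdist v w
    rw [angle_bp hc hJ (sph_norm v) (sph_norm w), ← CORA.hdist_cap2 h1 h2]
    exact hdist v w
  by_cases h5 : Real.sin R ^ 2 ≤ 5 / 41
  · refine ⟨0, fun _ => rfl, fun d _ K _ S hT hdist => ?_⟩
    obtain ⟨c, J, hc, hJ⟩ := CORA.exists_cJ d
    have h6 := Pool.Agent.Q183.CM.ball_minimal S (Or.inr hT) hR0 hR1 (by linarith) hc hJ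
      (key d K S hc hJ hdist)
    rw [cap_sig d hR0.le (by linarith [Real.pi_pos]) hc, ← ball_lf d hR0 hR1] at h6
    exact h6
  · obtain ⟨d₀, h⟩ := Pool.Agent.Q183.HD.ball_minimal hR0 hR1
    refine ⟨d₀, fun h' => absurd h' h5, fun d hd K _ S hT hdist => ?_⟩
    obtain ⟨c, J, hc, hJ⟩ := CORA.exists_cJ d
    have h6 := h d hd S (Or.inr hT) hc hJ (key d K S hc hJ hdist)
    rw [cap_sig d hR0.le (by linarith [Real.pi_pos]) hc, ← ball_lf d hR0 hR1] at h6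
    exact h6

/-- the volume of the region -/
theorem le_vol {d : ℕ} {F : E (d + 1) → E (d + 1)} (hF : CReg F) {R : ℝ} (hR0 : 0 < R)
    (hR1 : R < Real.pi / 2) (hFρ : ∀ y ∈ closedBall (0 : E (d + 1)) 1, ‖F y‖ < Real.sin R)
    {V V' : ENNReal}
    (hV : ∫⁻ p in ball (0 : E (d + 1)) (Real.sin R), ENNReal.ofReal (√(1 - ‖p‖ ^ 2))⁻¹ ≤ V')
    (hV' : V' ≤ V + ∫⁻ X in ball (0 : E (d + 1)) (Real.sin R) \ F '' closedBall 0 1,
      ENNReal.ofReal (√(1 - ‖X‖ ^ 2))⁻¹) :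
    ENNReal.ofReal (∫ x in F '' ball 0 1, (√(1 - ‖x‖ ^ 2))⁻¹) ≤ V := by
  have h1 : ENNReal.ofReal (∫ x in F '' ball 0 1, (√(1 - ‖x‖ ^ 2))⁻¹) ≤
      ∫⁻ x in F '' ball 0 1, ENNReal.ofReal (√(1 - ‖x‖ ^ 2))⁻¹ := by
    rw [integral_eq_lintegral_of_nonneg_ae]
    · exact ENNReal.ofReal_toReal_le
    · exact Eventually.of_forall fun x => by positivity
    · have h2 : Measurable fun x : E (d + 1) => (√(1 - ‖x‖ ^ 2))⁻¹ := by fun_prop
      exact h2.aestronglyMeasurable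
  have hD : IsClosed (F '' closedBall (0 : E (d + 1)) 1) :=
    ((isCompact_closedBall 0 1).image_of_continuousOn hF.cont).isClosed
  have hdis : Disjoint (F '' ball (0 : E (d + 1)) 1)
      (ball (0 : E (d + 1)) (Real.sin R) \ F '' closedBall 0 1) := by
    rw [Set.disjoint_left]
    rintro x hx ⟨-, hx2⟩
    exact hx2 (image_mono ball_subset_closedBall hx)
  have hfin : ∫⁻ X in ball (0 : E (d + 1)) (Real.sin R) \ F '' closedBall 0 1,
      ENNReal.ofReal (√(1 - ‖X‖ ^ 2))⁻¹ ≠ ⊤ := by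
    have h2 : ∫⁻ p in ball (0 : E (d + 1)) (Real.sin R), ENNReal.ofReal (lf p) ≠ ⊤ := by
      rw [ball_lf d hR0 hR1]
      exact ENNReal.ofReal_ne_top
    exact ne_top_of_le_ne_top h2 (lintegral_mono_set sdiff_subset)
  have h3 : (∫⁻ x in F '' ball 0 1, ENNReal.ofReal (√(1 - ‖x‖ ^ 2))⁻¹) +
      ∫⁻ X in ball (0 : E (d + 1)) (Real.sin R) \ F '' closedBall 0 1,
        ENNReal.ofReal (√(1 - ‖X‖ ^ 2))⁻¹ ≤
      ∫⁻ p in ball (0 : E (d + 1)) (Real.sin R), ENNReal.ofReal (√(1 - ‖p‖ ^ 2))⁻¹ := by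
    rw [← lintegral_union (isOpen_ball.measurableSet.diff hD.measurableSet) hdis]
    refine lintegral_mono_set (union_subset ?_ sdiff_subset)
    rintro _ ⟨y, hy, rfl⟩
    rw [mem_ball_zero_iff]
    exact hFρ y (ball_subset_closedBall hy)
  refine h1.trans ?_
  have h4 := (h3.trans hV).trans hV'
  exact (ENNReal.add_le_add_iff_right hfin).1 h4

/-- convex regions are minimal fillings -/
theorem minimal (hGLU : S_GLU) (hFILLG : S_FILLG) (hHEP : S_HEP) (hGRET : S_GRET)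
    (R : ℝ) (hR0 : 0 < R) (hR1 : R < Real.pi / 2) :
    ∃ d₀ : ℕ, (Real.sin R ^ 2 ≤ 5 / 41 → d₀ = 0) ∧ ∀ d : ℕ, d₀ ≤ d →
    ∀ (M : Type) [MetricSpace M] (S : Fill d M)
      (_ : S.NoRetraction) (L : NNReal) (_ : LipschitzWith L S.bd) (_ : FullSupp S)
      (F : E (d + 1) → E (d + 1)) (_ : CReg F)
      (_ : ∀ y ∈ closedBall (0 : E (d + 1)) 1, ‖F y‖ < Real.sin R)
      (_ : ∀ x y : Sph (d + 1), hdist (F x) (F y) ≤ dist (S.bd x) (S.bd y)),
      ENNReal.ofReal (∫ x in F '' ball 0 1, (√(1 - ‖x‖ ^ 2))⁻¹) ≤ S.vol := by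
  obtain ⟨d₀, hd₀, hC⟩ := caps R hR0 hR1
  have h0 : 0 < Real.sin R := Real.sin_pos_of_pos_of_lt_pi hR0 (by linarith [Real.pi_pos])
  have h1 : Real.sin R < 1 := by
    have h2 : 0 < Real.cos R := Real.cos_pos_of_mem_Ioo ⟨by linarith, hR1⟩
    have h3 := Real.cos_sq_add_sin_sq R
    nlinarith
  refine ⟨d₀, hd₀, fun d hd M _ S hnr L hL hfs F hF hFρ hbd => ?_⟩
  have hbc := hL.continuous
  obtain ⟨c1, c2, c3, c4, -⟩ := SPC.main (d + 1)
  have hbi : Function.Injective S.bd := by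
    intro x y hxy
    have h2 := hbd x y
    rw [hxy, dist_self] at h2
    have h3 := (c1 _ _ ((hFρ x (sphere_subset_closedBall x.2)).trans h1)
      ((hFρ y (sphere_subset_closedBall y.2)).trans h1)).1
      (le_antisymm h2 (Asm.hdist_nonneg _ _))
    exact Subtype.ext (hF.inj (sphere_subset_closedBall x.2) (sphere_subset_closedBall y.2) h3)
  obtain ⟨K, hK, i, j, hG⟩ := hGLU (d + 1) (by omega) M S.bd F (Real.sin R) h1 hbc hF hFρ hbd
  obtain ⟨S', hS'b, hS'f, hS'v⟩ := hFILLG d M S F (Real.sin R) K i j L h0 h1 hL hF hFρ hG hfs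
  have hnr' := Asm.noRet hHEP hGRET S hnr hbc hbi hF h0 h1 hFρ hG S' hS'b
  have hw : ∀ w : Sph (d + 1), ‖Real.sin R • (w : E (d + 1))‖ = Real.sin R := fun w => by
    have h2 : ‖(w : E (d + 1))‖ = 1 := by simp
    rw [norm_smul, h2, mul_one, Real.norm_of_nonneg h0.le]
  have hwD : ∀ w : Sph (d + 1), Real.sin R • (w : E (d + 1)) ∉ F '' closedBall 0 1 := by
    rintro w ⟨y, hy, hyw⟩
    have h2 := hFρ y hy
    rw [hyw, hw w] at h2
    exact lt_irrefl _ h2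
  have hS'd : ∀ v w : Sph (d + 1), dist (S'.bd v) (S'.bd w) =
      hdist (Real.sin R • (v : E (d + 1))) (Real.sin R • (w : E (d + 1))) := fun v w => by
    rw [hS'b, hS'b, hG.jj _ _ (hw v).le (hwD v) (hw w).le (hwD w)]
  exact le_vol hF hR0 hR1 hFρ (hC d hd K S' hnr' fun v w => (hS'd v w).ge) hS'v

end Pool.Agent.H780.HG.Min
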