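import Pool.Agent.H780.RG.StmC
import Pool.Graph.R_seed8.H241R3.FV.Stmts2

/-!
# Project HG (helper780): convex regions of the hemisphere in high dimensions, by gluing

The complement of the region in a cap is glued to the filling; `K` is the result.  The point `X` of the
open unit ball of `E n` stands for the point `(X, √(1 - |X|²))` of the open hemisphere; `hdist` is the
distance in the sphere, `gn` the central projection, `ig` its inverse, `CReg F`: `F` maps the closed unit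
ball homeomorphically onto a convex region of the open hemisphere.
-/

set_option autoImplicit false

open MeasureTheory Metric Set Filter Topology InnerProductGeometry

namespace Pool.Agent.H780.HG

open Pool.Agent.H241R3.FV Pool.Agent.N526.CP Pool.Agent.H780.RG

/-- `K` is obtained from `M` (by `i`) and the part of the cap `‖X‖ ≤ ρ` outside of the region
`F '' closedBall 0 1` (by `j`) by gluing `bd x` to `F x`. -/
structure IsGlu {n : ℕ} {M : Type} [MetricSpace M] (bd : Sph n → M) (F : E n → E n) (ρ : ℝ)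
    {K : Type} [MetricSpace K] (i : M → K) (j : E n → K) : Prop where
  surj : ∀ a : K, (∃ q, i q = a) ∨ ∃ X : E n, ‖X‖ ≤ ρ ∧ X ∉ F '' closedBall 0 1 ∧ j X = a
  inj : Function.Injective i
  le : ∀ q q', dist (i q) (i q') ≤ dist q q'
  ij : ∀ (q : M) (X : E n), ‖X‖ ≤ ρ → X ∉ F '' closedBall 0 1 →
    dist (i q) (j X) = ⨅ x : Sph n, (dist q (bd x) + hdist (F x) X)
  jj : ∀ X Y : E n, ‖X‖ ≤ ρ → X ∉ F '' closedBall 0 1 → ‖Y‖ ≤ ρ → Y ∉ F '' closedBall 0 1 →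
    dist (j X) (j Y) = hdist X Y

/-- GLU: the glued metric space exists -/
def S_GLU : Prop := ∀ (n : ℕ), 1 ≤ n → ∀ (M : Type) [MetricSpace M] (bd : Sph n → M)
  (F : E n → E n) (ρ : ℝ), ρ < 1 → Continuous bd → CReg F →
  (∀ y ∈ closedBall (0 : E n) 1, ‖F y‖ < ρ) →
  (∀ x y : Sph n, hdist (F x) (F y) ≤ dist (bd x) (bd y)) →
  ∃ (K : Type) (_ : MetricSpace K) (i : M → K) (j : E n → K), IsGlu bd F ρ i j

/-- the metric tensor of the open hemisphere in the coordinates `X` -/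
noncomputable def GH {n : ℕ} (X : E n) : Matrix (Fin n) (Fin n) ℝ :=
  fun a b => (if a = b then 1 else 0) + X a * X b / (1 - ‖X‖ ^ 2)

/-- HLEN: the Riemannian metric of the hemisphere -/
def S_HLEN : Prop := ∀ (n : ℕ), ContinuousOn (GH : E n → Matrix (Fin n) (Fin n) ℝ) (ball 0 1) ∧
  (∀ X ∈ ball (0 : E n) 1, (GH X).PosDef ∧ √(GH X).det = (√(1 - ‖X‖ ^ 2))⁻¹) ∧
  ∀ X ∈ ball (0 : E n) 1, ∀ Y ∈ ball (0 : E n) 1,
    hdist X Y ≤ ∫ t in (0 : ℝ)..1, gnorm (GH (X + t • (Y - X))) (Y - X)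

/-- every nonempty open set contains a set of positive measure of the part `D` of a chart -/
def FullSupp {d : ℕ} {M : Type} [MetricSpace M] (S : Fill d M) : Prop :=
  ∀ W : Set M, IsOpen W → W.Nonempty →
    ∃ k, volume {x | x ∈ (S.chart k).D ∧ (S.chart k).map x ∈ W} ≠ 0

/-- FILLG: the charts of the glued space -/
def S_FILLG : Prop := ∀ (d : ℕ) (M : Type) [MetricSpace M] (S : Fill d M)
  (F : E (d + 1) → E (d + 1)) (ρ : ℝ) (K : Type) [MetricSpace K] (i : M → K) (j : E (d + 1) → K)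
  (L : NNReal), 0 < ρ → ρ < 1 → LipschitzWith L S.bd → CReg F →
  (∀ y ∈ closedBall (0 : E (d + 1)) 1, ‖F y‖ < ρ) → IsGlu S.bd F ρ i j → FullSupp S →
  ∃ S' : Fill d K, (∀ w : Sph (d + 1), S'.bd w = j (ρ • (w : E (d + 1)))) ∧ FullSupp S' ∧
    S'.vol ≤ S.vol + ∫⁻ X in ball (0 : E (d + 1)) ρ \ F '' closedBall 0 1,
      ENNReal.ofReal (√(1 - ‖X‖ ^ 2))⁻¹

/-- HEP: Borsuk's homotopy extension theorem -/
def S_HEP : Prop := ∀ (n : ℕ) (M : Type) [MetricSpace M] (bd : Sph n → M), Continuous bd →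
  Function.Injective bd → ∀ f : M → Sph n, Continuous f →
  ∀ H : Sph n × unitInterval → Sph n, Continuous H → (∀ x, H (x, 0) = f (bd x)) →
  ∃ f' : M → Sph n, Continuous f' ∧ ∀ x, f' (bd x) = H (x, 1)

/-- GRET: the homotopy from the boundary of the region to the boundary of the cap -/
def S_GRET : Prop := ∀ (n : ℕ), 1 ≤ n → ∀ (M : Type) [MetricSpace M] (bd : Sph n → M)
  (F : E n → E n) (ρ : ℝ) (K : Type) [MetricSpace K] (i : M → K) (j : E n → K),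
  0 < ρ → ρ < 1 → Continuous bd → CReg F → (∀ y ∈ closedBall (0 : E n) 1, ‖F y‖ < ρ) →
  IsGlu bd F ρ i j → ∀ r : K → Sph n, Continuous r → (∀ w : Sph n, r (j (ρ • (w : E n))) = w) →
  ∃ (H : Sph n × unitInterval → Sph n) (w : Sph n ≃ₜ Sph n), Continuous H ∧
    (∀ x, H (x, 0) = r (i (bd x))) ∧ ∀ x, H (x, 1) = w x

/-- GEO: spherical geometry of the cap -/
def S_GEO : Prop := ∀ (n : ℕ) (ρ : ℝ), 0 < ρ → ρ < 1 →
  (∀ X : E n, ‖X‖ ≤ ρ → ∀ θ : Sph n, ∃ w : Sph n, Real.arcsin (inner ℝ X (θ : E n)) -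
    Real.arcsin (inner ℝ (ρ • (w : E n)) (θ : E n)) = hdist X (ρ • (w : E n))) ∧
  (1 ≤ n → ∀ X Y : E n, ‖X‖ ≤ ρ → ‖Y‖ ≤ ρ →
    ∃ w : Sph n, hdist X (ρ • (w : E n)) = hdist X Y + hdist Y (ρ • (w : E n))) ∧
  (1 ≤ n → ∀ X Y : E n, ‖X‖ ≤ ρ → ‖Y‖ ≤ ρ →
    (∀ w : Sph n, hdist X (ρ • (w : E n)) = hdist Y (ρ • (w : E n))) → X = Y) ∧
  ∀ (X Y : E n) (θ : Sph n), ‖X‖ < 1 → ‖Y‖ < 1 →
    Real.arcsin (inner ℝ X (θ : E n)) - Real.arcsin (inner ℝ Y (θ : E n)) ≤ hdist X Y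

/-- CORA: the case of equality for caps (from the library) -/
def S_CORA : Prop := ∀ R : ℝ, 0 < R → R < Real.pi / 2 → ∃ d₀ : ℕ,
  (Real.sin R ^ 2 ≤ 5 / 41 → d₀ = 0) ∧ ∀ d : ℕ, d₀ ≤ d → ∀ (K : Type) [MetricSpace K]
  (S : Fill d K), S.NoRetraction → Continuous S.bd → FullSupp S →
  (∀ v w : Sph (d + 1), hdist (Real.sin R • (v : E (d + 1))) (Real.sin R • (w : E (d + 1))) ≤
    dist (S.bd v) (S.bd w)) →
  S.vol ≤ ∫⁻ p in ball (0 : E (d + 1)) (Real.sin R), ENNReal.ofReal (√(1 - ‖p‖ ^ 2))⁻¹ →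
  ∃ P : K → E (d + 1), (∀ q, ‖P q‖ ≤ Real.sin R) ∧
    (∀ (q : K) (w : Sph (d + 1)), dist q (S.bd w) = hdist (P q) (Real.sin R • (w : E (d + 1)))) ∧
    ∀ A : Set K, IsClosed A → (∀ p : E (d + 1), ‖p‖ < Real.sin R → ∃ q ∈ A, P q = p) → A = univ

end Pool.Agent.H780.HG
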